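import Pool.Agent.W895.GH.Curve
import Pool.Agent.W895.BC.Sat

/-!
# Forms on disjoint blocks of the variables
-/

set_option autoImplicit false

open Finset

namespace Pool.Agent.W895.GH

open Pool.Agent.H554R2.Sem Pool.Agent.H554R2.Coin Pool.Agent.H554R2.Lin Pool.Agent.H554R2.Rnd
open Pool.Agent.H554R2.Qua Pool.Agent.H554R2.NC Pool.Agent.H554R2.Cnf
open Pool.Agent.H538R4.SP (fix)
open Pool.Agent.W895.LT (AccIn conj)
open Pool.Agent.W895.BC (fix_acc)
open Pool.Agent.W895.PC (sgp abs_sgp expand Lift)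

/-- averaging over the values of some of the variables -/
theorem swap_sum {m n : ℕ} (p : Fin m → Fin n) (hp : Function.Injective p) (g : Pt n → ℝ) :
    (2 : ℝ) ^ m * ∑ x, g x = ∑ x : Pt n, ∑ y : Pt m, g (plug p x y) := by
  classical
  have hinv : ∀ (x : Pt n) (y : Pt m), plug p (plug p x y) (fun i => x (p i)) = x := by
    intro x y
    funext v
    by_cases h : ∃ i, p i = v
    · obtain ⟨i, rfl⟩ := h
      exact plug_apply p hp _ _ i
    · push Not at h
      rw [plug_other p _ _ v h, plug_other p _ _ v h]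
  have h1 : ∑ x : Pt n, ∑ y : Pt m, g (plug p x y) = ∑ c : Pt n × Pt m, g (plug p c.1 c.2) :=
    (Fintype.sum_prod_type (fun c : Pt n × Pt m => g (plug p c.1 c.2))).symm
  have h2 : ∑ c : Pt n × Pt m, g (plug p c.1 c.2) = ∑ c : Pt n × Pt m, g c.1 := by
    refine Finset.sum_bij' (fun c _ => (plug p c.1 c.2, fun i => c.1 (p i)))
      (fun c _ => (plug p c.1 c.2, fun i => c.1 (p i))) (fun _ _ => mem_univ _)
      (fun _ _ => mem_univ _) ?_ ?_ ?_
    · rintro ⟨x, y⟩ _
      refine Prod.ext (hinv x y) ?_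
      funext i
      exact plug_apply p hp _ _ i
    · rintro ⟨x, y⟩ _
      refine Prod.ext (hinv x y) ?_
      funext i
      exact plug_apply p hp _ _ i
    · rintro ⟨x, y⟩ _
      rfl
  rw [h1, h2, Fintype.sum_prod_type]
  simp only [Finset.sum_const, Finset.card_univ, Fintype.card_fun, Fintype.card_bool,
    Fintype.card_fin, nsmul_eq_mul]
  rw [Finset.mul_sum]
  push_cast
  rfl

section

variable {κ m n : ℕ}

/-- the block `i` of the input -/
def bl (e : Fin κ × Fin m → Fin n) (x : Pt n) (i : Fin κ) : Pt m := fun a => x (e (i, a))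

theorem bl_plug_same {e : Fin κ × Fin m → Fin n} (he : Function.Injective e) (i : Fin κ)
    (x : Pt n) (y : Pt m) : bl e (plug (fun a => e (i, a)) x y) i = y := by
  funext a
  exact plug_apply (fun a => e (i, a)) (fun a b h => (Prod.ext_iff.1 (he h)).2) _ _ a

theorem bl_plug_other {e : Fin κ × Fin m → Fin n} (he : Function.Injective e) {i j : Fin κ}
    (hij : j ≠ i) (x : Pt n) (y : Pt m) : bl e (plug (fun a => e (i, a)) x y) j = bl e x j := by
  funext a
  refine plug_other (fun a => e (i, a)) _ _ _ fun b h => hij ?_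
  exact ((Prod.ext_iff.1 (he h)).1).symm

/-- sums of products over the blocks -/
theorem sum_blocks {e : Fin κ × Fin m → Fin n} (he : Function.Injective e)
    (f : Fin κ → Pt m → ℝ) :
    (2 : ℝ) ^ (κ * m) * ∑ x : Pt n, ∏ i, f i (bl e x i) = 2 ^ n * ∏ i, ∑ y, f i y := by
  have hinj : Function.Injective (fun c : Fin (κ * m) => e (finProdFinEquiv.symm c)) :=
    he.comp finProdFinEquiv.symm.injective
  rw [swap_sum (fun c : Fin (κ * m) => e (finProdFinEquiv.symm c)) hinj]
  have h1 : ∀ (x : Pt n) (y : Pt (κ * m)),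
      ∏ i, f i (bl e (plug (fun c : Fin (κ * m) => e (finProdFinEquiv.symm c)) x y) i) =
        ∏ i, f i (fun a => y (finProdFinEquiv (i, a))) := by
    intro x y
    refine Finset.prod_congr rfl fun i _ => ?_
    congr 1
    funext a
    have := plug_apply (fun c : Fin (κ * m) => e (finProdFinEquiv.symm c)) hinj x y
      (finProdFinEquiv (i, a))
    rw [Equiv.symm_apply_apply] at this
    exact this
  simp only [h1]
  rw [Finset.sum_const, Finset.card_univ, Fintype.card_fun, Fintype.card_bool, Fintype.card_fin,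
    nsmul_eq_mul]
  push_cast
  congr 1
  rw [Finset.prod_univ_sum, Fintype.piFinset_univ]
  refine Finset.sum_bij' (fun y _ => fun i a => y (finProdFinEquiv (i, a)))
    (fun z _ => fun c => z (finProdFinEquiv.symm c).1 (finProdFinEquiv.symm c).2)
    (fun _ _ => mem_univ _) (fun _ _ => mem_univ _) ?_ ?_ ?_
  · intro y _
    funext c
    show y (finProdFinEquiv ((finProdFinEquiv.symm c).1, (finProdFinEquiv.symm c).2)) = y c
    rw [Prod.mk.eta, Equiv.apply_symm_apply]
  · intro z _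
    funext i a
    show z (finProdFinEquiv.symm (finProdFinEquiv (i, a))).1
      (finProdFinEquiv.symm (finProdFinEquiv (i, a))).2 = z i a
    rw [Equiv.symm_apply_apply]
  · intro y _
    rfl

/-- the product of the characters of the groups -/
def chr {J : ℕ} (u : Fin κ → Finset (Fin J)) (z : Fin κ → Fin J → Bool) : ℝ :=
  ∏ i, (sgp (u i) (z i) : ℝ)

theorem abs_chr {J : ℕ} (u : Fin κ → Finset (Fin J)) (z : Fin κ → Fin J → Bool) :
    |chr u z| = 1 := by
  unfold chr
  rw [Finset.abs_prod]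
  refine Finset.prod_eq_one fun i _ => ?_
  rw [← Int.cast_abs, abs_sgp]
  norm_num

/-- the expansion of a function of the patterns -/
theorem expand_block {J : ℕ} (Λ : (Fin κ → Fin J → Bool) → ℝ) (z : Fin κ → Fin J → Bool) :
    Λ z = ∑ u : Fin κ → Finset (Fin J), (∑ w, Λ w * chr u w) / (2 ^ J) ^ κ * chr u z := by
  classical
  have h0 : ∀ w z : Fin J → Bool, ∑ u : Finset (Fin J), ((sgp u w : ℝ)) * sgp u z =
      if w = z then 2 ^ J else 0 := by
    intro w z
    have h1 := expand (fun z => if w = z then (2 : ℝ) ^ J else 0) z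
    simp only [ite_mul, zero_mul] at h1
    rw [h1]
    refine Finset.sum_congr rfl fun u _ => ?_
    rw [Finset.sum_ite_eq univ w (fun x => (2 : ℝ) ^ J * (sgp u x : ℝ)),
      if_pos (Finset.mem_univ w)]
    have : (2 : ℝ) ^ J ≠ 0 := by positivity
    field_simp
  have h1 : ∀ w : Fin κ → Fin J → Bool, ∑ u : Fin κ → Finset (Fin J), chr u w * chr u z =
      if w = z then (2 ^ J) ^ κ else 0 := by
    intro w
    unfold chr
    simp only [← Finset.prod_mul_distrib]
    have h2 := Finset.prod_univ_sum (R := ℝ) (fun _ : Fin κ => (univ : Finset (Finset (Fin J))))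
      (fun i u => (sgp u (w i) : ℝ) * (sgp u (z i) : ℝ))
    rw [Fintype.piFinset_univ] at h2
    rw [← h2]
    simp only [h0]
    split_ifs with h
    · subst h
      simp
    · obtain ⟨i, hi⟩ := Function.ne_iff.1 h
      exact Finset.prod_eq_zero (Finset.mem_univ i) (if_neg hi)
  have h2 : ∑ u : Fin κ → Finset (Fin J), (∑ w, Λ w * chr u w) / (2 ^ J) ^ κ * chr u z =
      ∑ w, Λ w / (2 ^ J) ^ κ * ∑ u : Fin κ → Finset (Fin J), chr u w * chr u z := by
    simp only [Finset.mul_sum, Finset.sum_div, Finset.sum_mul]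
    rw [Finset.sum_comm]
    refine Finset.sum_congr rfl fun w _ => Finset.sum_congr rfl fun u _ => ?_
    ring
  rw [h2]
  simp only [h1]
  have h3 : ∀ w, Λ w / (2 ^ J) ^ κ * (if w = z then ((2 : ℝ) ^ J) ^ κ else 0) =
      if w = z then Λ w else 0 := by
    intro w
    split_ifs
    · field_simp
    · simp
  simp only [h3]
  rw [Finset.sum_ite_eq' univ z Λ, if_pos (Finset.mem_univ z)]

/-- functionals which vanish on the functions of at most `L` bits of each group -/
theorem dual_block {J L : ℕ} (pat : Pt n → Fin κ → Fin J → Bool) (A : Finset (Pt n)) (E : ℝ)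
    (hE : 0 < E) (hcorr : ∀ u : Fin κ → Finset (Fin J), (∃ i, L < (u i).card) →
      |∑ x ∈ A, chr u (pat x)| * E ≤ 2 ^ n)
    (Λ : (Fin κ → Fin J → Bool) → ℝ)
    (hΛ : ∀ u : Fin κ → Finset (Fin J), (∀ i, (u i).card ≤ L) → ∑ z, Λ z * chr u z = 0) :
    |∑ x ∈ A, Λ (pat x)| * E ≤ 2 ^ n * ∑ w, |Λ w| := by
  classical
  have h1 : ∑ x ∈ A, Λ (pat x) = ∑ u : Fin κ → Finset (Fin J),
      (∑ w, Λ w * chr u w) / (2 ^ J) ^ κ * ∑ x ∈ A, chr u (pat x) := by
    simp only [Finset.mul_sum]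
    rw [Finset.sum_comm]
    exact Finset.sum_congr rfl fun x _ => expand_block Λ (pat x)
  have h2 : ∀ u : Fin κ → Finset (Fin J), |(∑ w, Λ w * chr u w) / (2 ^ J) ^ κ *
      ∑ x ∈ A, chr u (pat x)| * E ≤ (∑ w, |Λ w|) / (2 ^ J) ^ κ * 2 ^ n := by
    intro u
    by_cases hu : ∀ i, (u i).card ≤ L
    · rw [hΛ u hu, zero_div, zero_mul, abs_zero, zero_mul]
      exact mul_nonneg (div_nonneg (Finset.sum_nonneg fun w _ => abs_nonneg _) (by positivity))
        (by positivity)
    · push Not at hu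
      have h3 := hcorr u hu
      have h4 : |∑ w, Λ w * chr u w| ≤ ∑ w, |Λ w| := by
        refine (Finset.abs_sum_le_sum_abs _ _).trans (le_of_eq ?_)
        refine Finset.sum_congr rfl fun w _ => ?_
        rw [abs_mul, abs_chr, mul_one]
      rw [abs_mul, abs_div, abs_of_pos (show (0 : ℝ) < (2 ^ J) ^ κ by positivity), mul_assoc]
      exact mul_le_mul (div_le_div_of_nonneg_right h4 (by positivity)) h3 (by positivity)
        (div_nonneg (Finset.sum_nonneg fun w _ => abs_nonneg _) (by positivity))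
  rw [h1]
  calc |∑ u : Fin κ → Finset (Fin J), (∑ w, Λ w * chr u w) / (2 ^ J) ^ κ *
        ∑ x ∈ A, chr u (pat x)| * E ≤
      (∑ u : Fin κ → Finset (Fin J), |(∑ w, Λ w * chr u w) / (2 ^ J) ^ κ *
        ∑ x ∈ A, chr u (pat x)|) * E :=
        mul_le_mul_of_nonneg_right (Finset.abs_sum_le_sum_abs _ _) hE.le
    _ = ∑ u : Fin κ → Finset (Fin J), |(∑ w, Λ w * chr u w) / (2 ^ J) ^ κ *
        ∑ x ∈ A, chr u (pat x)| * E := Finset.sum_mul _ _ _
    _ ≤ ∑ _u : Fin κ → Finset (Fin J), (∑ w, |Λ w|) / (2 ^ J) ^ κ * 2 ^ n :=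
        Finset.sum_le_sum fun u _ => h2 u
    _ = _ := by
      rw [Finset.sum_const, Finset.card_univ, Fintype.card_fun, Fintype.card_finset,
        Fintype.card_fin, Fintype.card_fin, nsmul_eq_mul]
      push_cast
      field_simp

/-- the pattern of the blocks -/
def pat {J : ℕ} (e : Fin κ × Fin m → Fin n) (p : Pt m → Fin J → Bool) (x : Pt n) :
    Fin κ → Fin J → Bool := fun i => p (bl e x i)

/-- the size of the clocked program -/
theorem clock_size (k S n : ℕ) (hn : 1 ≤ n) (hS : n ≤ 2 ^ S) (hS1 : 1 ≤ S) :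
    4 ^ (1 + 1) * (2 ^ S * (k * n + 2) + n + 3) ≤ 2 ^ (S * (k + 11)) := by
  have h1 : k + 4 ≤ 2 ^ (k + 4) := Nat.lt_two_pow_self.le
  have h2 : n + 1 ≤ 2 ^ (S + 1) := by
    rw [pow_succ]
    have : 1 ≤ 2 ^ S := Nat.one_le_two_pow
    omega
  have h3 : 1 ≤ 2 ^ S := Nat.one_le_two_pow
  calc 4 ^ (1 + 1) * (2 ^ S * (k * n + 2) + n + 3) ≤
      4 ^ (1 + 1) * (2 ^ S * ((k + 4) * (n + 1))) := by
        apply Nat.mul_le_mul_left
        have e1 : 2 ^ S * ((k + 4) * (n + 1)) =
          2 ^ S * (k * n + 2) + 2 ^ S * (k + 4 * n + 2) := by ring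
        rw [e1]
        have e2 : k + 4 * n + 2 ≤ 2 ^ S * (k + 4 * n + 2) := Nat.le_mul_of_pos_left _ h3
        omega
    _ ≤ 4 ^ (1 + 1) * (2 ^ S * (2 ^ (k + 4) * 2 ^ (S + 1))) := by
        apply Nat.mul_le_mul_left
        apply Nat.mul_le_mul_left
        exact Nat.mul_le_mul h1 h2
    _ = 2 ^ (2 * S + (k + 9)) := by
        have : (4 : ℕ) = 2 ^ 2 := by norm_num
        rw [this, ← pow_mul, ← pow_add, ← pow_add, ← pow_add]
        congr 1
        ring
    _ ≤ _ := by
        apply Nat.pow_le_pow_right (by norm_num)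
        nlinarith

/-- **Products of characters with a large factor.** -/
theorem block_corr {e : Fin κ × Fin m → Fin n} (he : Function.Injective e) {k K L C J : ℕ}
    {p : Pt m → Fin J → Bool} (hp : Lift K 1 L C J m p) (hK : (k + 1) * n ≤ K * m)
    (u : Fin κ → Finset (Fin J)) (hu : ∃ i, L < (u i).card) (S : ℕ) (hS : n ≤ 2 ^ S) (hS1 : 1 ≤ S)
    (hn : 1 ≤ n) (hmn : m ≤ n) (τ : ℕ) (hτ : τ ≤ k * n) (P : BP (Fin n) Bool) (hP : Fintype.card P.State ≤ 2 ^ S)
    (A : Finset (Pt n)) (hA : ∀ x, x ∈ A ↔ AccIn P τ x) :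
    |∑ x ∈ A, chr u (pat e p x)| * 2 ^ (m / (C * (S * (k + 11)))) ≤ 2 ^ n := by
  classical
  obtain ⟨i, hi⟩ := hu
  obtain ⟨E, hE⟩ : ∃ E : ℝ, E = 2 ^ (m / (C * (S * (k + 11)))) := ⟨_, rfl⟩
  have hE0 : 0 < E := by rw [hE]; positivity
  rw [← hE]
  have hinj : Function.Injective (fun a => e (i, a)) := fun a b h => (Prod.ext_iff.1 (he h)).2
  obtain ⟨U, hU1, hU2, hU3⟩ := conj k 1 τ hτ (fun _ : Unit => P) (2 ^ S) (fun _ => hP)
  have hacc : ∀ x, (∃ l, (U fun _ => ()).Comp x l true) ↔ AccIn P τ x := by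
    intro x
    rw [hU3]
    exact ⟨fun h => h 0, fun h _ => h⟩
  have hfix : ∀ (x : Pt n) (y : Pt m),
      AccIn (fix (fun a => e (i, a)) x (U fun _ => ())) ((k + 1) * n) y ↔
        plug (fun a => e (i, a)) x y ∈ A := by
    intro x y
    rw [fix_acc hinj, hA, ← hacc]
    constructor
    · rintro ⟨l, h1, -⟩
      exact ⟨l, h1⟩
    · rintro ⟨l, h1⟩
      refine ⟨l, h1, ?_⟩
      obtain ⟨l', b', h2, h3, -⟩ := hU2 (fun _ => ()) (plug (fun a => e (i, a)) x y)
      have h4 : l = l' := by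
        obtain ⟨v, h5, h6⟩ := h1
        obtain ⟨v', h7, h8⟩ := h3
        exact (Pool.Agent.H554R2.Coin.comp_unique _ _ ⟨v, h5, h6⟩ ⟨v', h7, h8⟩).1
      rw [h4]
      have h5 : ∑ a, l'.count (e (i, a)) ≤ l'.length := by
        have h6 := Pool.Agent.H538R4.SP.idx_length (fun a => e (i, a)) hinj l'
        rw [← h6]
        exact List.length_filterMap_le _ _
      refine h5.trans (h2.trans ?_)
      rw [one_mul]
  have hin : ∀ x : Pt n, |∑ y : Pt m, if plug (fun a => e (i, a)) x y ∈ A then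
      chr u (pat e p (plug (fun a => e (i, a)) x y)) else 0| * E ≤ 2 ^ m := by
    intro x
    obtain ⟨A', hA'⟩ : ∃ A' : Finset (Pt m), A' = univ.filter (fun y =>
      plug (fun a => e (i, a)) x y ∈ A) := ⟨_, rfl⟩
    obtain ⟨c, hc⟩ : ∃ c : ℝ, c = ∏ j ∈ univ.erase i, (sgp (u j) (p (bl e x j)) : ℝ) := ⟨_, rfl⟩
    have hc1 : |c| = 1 := by
      rw [hc, Finset.abs_prod]
      refine Finset.prod_eq_one fun j _ => ?_
      rw [← Int.cast_abs, abs_sgp]
      norm_num
    have h1 : ∀ y : Pt m, chr u (pat e p (plug (fun a => e (i, a)) x y)) =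
        (sgp (u i) (p y) : ℝ) * c := by
      intro y
      unfold chr pat
      rw [← Finset.mul_prod_erase univ _ (Finset.mem_univ i), bl_plug_same he, hc]
      congr 1
      refine Finset.prod_congr rfl fun j hj => ?_
      rw [bl_plug_other he (Finset.ne_of_mem_erase hj)]
    simp only [h1]
    rw [← Finset.sum_filter, ← Finset.sum_mul, abs_mul, hc1, mul_one, ← hA']
    have h2 := hp.corr (u i) hi (S * (k + 11)) (by
      refine hmn.trans (hS.trans (Nat.pow_le_pow_right (by norm_num) ?_))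
      exact Nat.le_mul_of_pos_right _ (by omega)) ((k + 1) * n) hK
      (fun _ => fix (fun a => e (i, a)) x (U fun _ => ())) (fun _ => by
        have h3 : Fintype.card (fix (fun a => e (i, a)) x (U fun _ => ())).State =
          Fintype.card (U fun _ => ()).State := Fintype.card_congr (Equiv.refl _)
        rw [h3]
        exact (hU1 _).trans (clock_size k S n hn hS hS1)) A' (by
        intro y
        rw [hA', mem_filter, ← hfix x y]
        constructor
        · exact fun h _ => h.2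
        · exact fun h => ⟨mem_univ _, h 0⟩)
    rw [← hE] at h2
    refine le_trans (le_of_eq ?_) h2
    push_cast
    rfl
  have hsw := swap_sum (fun a => e (i, a)) hinj
    (fun x => if x ∈ A then chr u (pat e p x) else 0)
  have hAs : ∑ x ∈ A, chr u (pat e p x) = ∑ x, if x ∈ A then chr u (pat e p x) else 0 := by
    rw [Finset.sum_ite_mem, Finset.univ_inter]
  have h2m : (0 : ℝ) < 2 ^ m := by positivity
  have h3 : |(2 : ℝ) ^ m * ∑ x ∈ A, chr u (pat e p x)| * E ≤ 2 ^ n * 2 ^ m := by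
    rw [hAs, hsw]
    calc |∑ x : Pt n, ∑ y : Pt m, if plug (fun a => e (i, a)) x y ∈ A then
          chr u (pat e p (plug (fun a => e (i, a)) x y)) else 0| * E ≤
        (∑ x : Pt n, |∑ y : Pt m, if plug (fun a => e (i, a)) x y ∈ A then
          chr u (pat e p (plug (fun a => e (i, a)) x y)) else 0|) * E :=
          mul_le_mul_of_nonneg_right (Finset.abs_sum_le_sum_abs _ _) hE0.le
      _ = ∑ x : Pt n, |∑ y : Pt m, if plug (fun a => e (i, a)) x y ∈ A then
          chr u (pat e p (plug (fun a => e (i, a)) x y)) else 0| * E := Finset.sum_mul _ _ _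
      _ ≤ ∑ _x : Pt n, 2 ^ m := Finset.sum_le_sum fun x _ => hin x
      _ = _ := by
        rw [Finset.sum_const, Finset.card_univ, Fintype.card_fun, Fintype.card_bool,
          Fintype.card_fin, nsmul_eq_mul]
        push_cast
        rfl
  rw [abs_mul, abs_of_pos h2m] at h3
  have h4 : (2 : ℝ) ^ m * (|∑ x ∈ A, chr u (pat e p x)| * E) ≤ 2 ^ m * 2 ^ n := by
    linarith
  exact le_of_mul_le_mul_left h4 h2m

/-- the masses of the distributions -/
theorem mass {e : Fin κ × Fin m → Fin n} (he : Function.Injective e) {K L C J : ℕ}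
    {p : Pt m → Fin J → Bool} (hp : Lift K 1 L C J m p) (x : ℕ) (hx : ∀ i : Fin κ, tt i x ≤ J) :
    (3 / 4) ^ κ * ((2 : ℝ) ^ n / 2 ^ (κ * J)) ≤ ∑ y, mu κ J x (pat e p y) ∧
    ∑ y, mu κ J x (pat e p y) ≤ (5 / 4) ^ κ * ((2 : ℝ) ^ n / 2 ^ (κ * J)) := by
  classical
  have h1 := sum_blocks he (fun i y => nu J (tt i x) (p y))
  have h2 : ∀ i : Fin κ, 3 / 4 * ((2 : ℝ) ^ m / 2 ^ J) ≤ ∑ y, nu J (tt i x) (p y) ∧
      ∑ y, nu J (tt i x) (p y) ≤ 5 / 4 * ((2 : ℝ) ^ m / 2 ^ J) := by
    intro i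
    have h3 : ∑ y, nu J (tt i x) (p y) =
        ∑ z, nu J (tt i x) z * ((univ.filter (fun y => p y = z)).card : ℝ) := by
      have h4 := Finset.sum_fiberwise_of_maps_to (s := (univ : Finset (Pt m)))
        (t := (univ : Finset (Fin J → Bool))) (g := p) (fun _ _ => Finset.mem_univ _)
        (fun y => nu J (tt i x) (p y))
      rw [← h4]
      refine Finset.sum_congr rfl fun z _ => ?_
      have h5 : ∀ y ∈ univ.filter (fun y => p y = z), nu J (tt i x) (p y) = nu J (tt i x) z := by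
        intro y hy
        rw [(Finset.mem_filter.1 hy).2]
      rw [Finset.sum_congr rfl h5, Finset.sum_const, nsmul_eq_mul, mul_comm]
    have h6 := sum_nu_one (hx i)
    rw [h3]
    constructor
    · calc 3 / 4 * ((2 : ℝ) ^ m / 2 ^ J) = ∑ z, nu J (tt i x) z * (3 / 4 * ((2 : ℝ) ^ m / 2 ^ J)) := by
            rw [← Finset.sum_mul, h6, one_mul]
        _ ≤ _ := Finset.sum_le_sum fun z _ => mul_le_mul_of_nonneg_left (hp.low z) (nu_nonneg _ _ _)
    · calc ∑ z, nu J (tt i x) z * ((univ.filter (fun y => p y = z)).card : ℝ) ≤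
          ∑ z, nu J (tt i x) z * (5 / 4 * ((2 : ℝ) ^ m / 2 ^ J)) :=
            Finset.sum_le_sum fun z _ => mul_le_mul_of_nonneg_left (hp.high z) (nu_nonneg _ _ _)
        _ = _ := by rw [← Finset.sum_mul, h6, one_mul]
  have h3 : ∏ _i : Fin κ, (3 / 4 * ((2 : ℝ) ^ m / 2 ^ J)) ≤ ∏ i : Fin κ, ∑ y, nu J (tt i x) (p y) :=
    Finset.prod_le_prod (fun i _ => by positivity) (fun i _ => (h2 i).1)
  have h4 : ∏ i : Fin κ, ∑ y, nu J (tt i x) (p y) ≤ ∏ _i : Fin κ, (5 / 4 * ((2 : ℝ) ^ m / 2 ^ J)) :=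
    Finset.prod_le_prod (fun i _ => Finset.sum_nonneg fun _ _ => nu_nonneg _ _ _)
      (fun i _ => (h2 i).2)
  rw [Finset.prod_const, Finset.card_univ, Fintype.card_fin] at h3 h4
  have h5 : ∑ y : Pt n, ∏ i : Fin κ, nu J (tt i x) (p (bl e y i)) = ∑ y, mu κ J x (pat e p y) := rfl
  rw [h5] at h1
  have h6 : (0 : ℝ) < 2 ^ (κ * m) := by positivity
  have h7 : (0 : ℝ) < 2 ^ n := by positivity
  have h8 : ∀ c : ℝ, 2 ^ (κ * m) * (c ^ κ * ((2 : ℝ) ^ n / 2 ^ (κ * J))) =
      2 ^ n * (c * (2 ^ m / 2 ^ J)) ^ κ := by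
    intro c
    rw [mul_pow, div_pow, ← pow_mul, ← pow_mul, mul_comm m κ, mul_comm J κ]
    field_simp
  constructor
  · refine le_of_mul_le_mul_left ?_ h6
    rw [h1, h8]
    exact mul_le_mul_of_nonneg_left h3 h7.le
  · refine le_of_mul_le_mul_left ?_ h6
    rw [h1, h8]
    exact mul_le_mul_of_nonneg_left h4 h7.le

end

end Pool.Agent.W895.GH
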