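import Pool.Agent.W895.PC.Lift

/-!
# Random words of given weight: the mean values of the characters are polynomials in the weight
-/

set_option autoImplicit false

open Finset Polynomial

namespace Pool.Agent.W895.GH

open Pool.Agent.H554R2.Sem Pool.Agent.H554R2.Coin Pool.Agent.H554R2.Lin Pool.Agent.H554R2.Rnd
open Pool.Agent.H554R2.Qua Pool.Agent.H554R2.NC
open Pool.Agent.W895.PC (sgp abs_sgp)

/-- the weight -/
def wgt {J : ℕ} (w : Fin J → Bool) : ℕ := (univ.filter (fun j => w j = true)).card

/-- the uniform distribution on the words of weight `t` -/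
noncomputable def nu (J t : ℕ) (w : Fin J → Bool) : ℝ :=
  if wgt w = t then 1 / (J.choose t : ℝ) else 0

theorem nu_nonneg (J t : ℕ) (w : Fin J → Bool) : 0 ≤ nu J t w := by
  unfold nu
  split_ifs
  · positivity
  · exact le_rfl

/-- the number of the sets of `t` elements which contain a given set -/
theorem card_sup {J t : ℕ} (v : Finset (Fin J)) :
    (J.choose v.card) * ((powersetCard t (univ : Finset (Fin J))).filter (fun T => v ⊆ T)).card =
      (if t ≤ J then (J.choose t) * (t.choose v.card) else 0) := by
  classical
  have hvJ : v.card ≤ J := by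
    have := Finset.card_le_univ v
    rwa [Fintype.card_fin] at this
  by_cases ht : t ≤ J
  · rw [if_pos ht]
    by_cases hv : v.card ≤ t
    · have h1 : ((powersetCard t (univ : Finset (Fin J))).filter (fun T => v ⊆ T)).card =
          (powersetCard (t - v.card) (univ \ v)).card := by
        refine Finset.card_bij' (fun T _ => T \ v) (fun T _ => T ∪ v) ?_ ?_ ?_ ?_
        · intro T hT
          rw [mem_filter, mem_powersetCard] at hT
          rw [mem_powersetCard]
          refine ⟨Finset.sdiff_subset_sdiff (Finset.subset_univ _) (Finset.Subset.refl _), ?_⟩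
          rw [Finset.card_sdiff_of_subset hT.2, hT.1.2]
        · intro T hT
          rw [mem_powersetCard] at hT
          rw [mem_filter, mem_powersetCard]
          refine ⟨⟨Finset.subset_univ _, ?_⟩, Finset.subset_union_right⟩
          rw [Finset.card_union_of_disjoint, hT.2]
          · omega
          · exact Finset.disjoint_of_subset_left hT.1 Finset.sdiff_disjoint
        · intro T hT
          rw [mem_filter] at hT
          exact Finset.sdiff_union_of_subset hT.2
        · intro T hT
          rw [mem_powersetCard] at hT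
          exact Finset.union_sdiff_cancel_right
            (Finset.disjoint_of_subset_left hT.1 Finset.sdiff_disjoint)
      rw [h1, Finset.card_powersetCard, Finset.card_sdiff_of_subset (Finset.subset_univ _),
        Finset.card_univ, Fintype.card_fin]
      exact (Nat.choose_mul hv).symm
    · have h1 : (powersetCard t (univ : Finset (Fin J))).filter (fun T => v ⊆ T) = ∅ := by
        rw [Finset.filter_eq_empty_iff]
        intro T hT h2
        rw [mem_powersetCard] at hT
        have := Finset.card_le_card h2
        omega
      rw [h1, Finset.card_empty, mul_zero, Nat.choose_eq_zero_of_lt (show t < v.card by omega),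
        mul_zero]
  · rw [if_neg ht]
    have h1 : powersetCard t (univ : Finset (Fin J)) = ∅ := by
      rw [Finset.powersetCard_eq_empty, Finset.card_univ, Fintype.card_fin]
      omega
    rw [h1, Finset.filter_empty, Finset.card_empty, mul_zero]

/-- the mean value of a monomial -/
theorem sum_nu_mono {J t : ℕ} (ht : t ≤ J) (v : Finset (Fin J)) :
    ∑ w, nu J t w * (if ∀ j ∈ v, w j = true then 1 else 0) =
      (t.choose v.card : ℝ) / (J.choose v.card : ℝ) := by
  classical
  have hvJ : v.card ≤ J := by
    have := Finset.card_le_univ v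
    rwa [Fintype.card_fin] at this
  have hc1 : (0 : ℝ) < J.choose v.card := by exact_mod_cast Nat.choose_pos hvJ
  have hc2 : (0 : ℝ) < J.choose t := by exact_mod_cast Nat.choose_pos ht
  have h1 : ∑ w, nu J t w * (if ∀ j ∈ v, w j = true then 1 else 0) =
      ((univ.filter (fun w : Fin J → Bool => wgt w = t ∧ ∀ j ∈ v, w j = true)).card : ℝ) /
        (J.choose t : ℝ) := by
    rw [Finset.card_filter]
    push_cast
    rw [Finset.sum_div]
    refine Finset.sum_congr rfl fun w _ => ?_
    unfold nu
    by_cases h2 : wgt w = t
    · by_cases h3 : ∀ j ∈ v, w j = true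
      · rw [if_pos h2, if_pos h3, if_pos ⟨h2, h3⟩]
        ring
      · rw [if_pos h2, if_neg h3, if_neg (show ¬ (wgt w = t ∧ ∀ j ∈ v, w j = true) from
          fun h => h3 h.2)]
        ring
    · rw [if_neg h2, if_neg (show ¬ (wgt w = t ∧ ∀ j ∈ v, w j = true) from fun h => h2 h.1)]
      ring
  have h2 : (univ.filter (fun w : Fin J → Bool => wgt w = t ∧ ∀ j ∈ v, w j = true)).card =
      ((powersetCard t (univ : Finset (Fin J))).filter (fun T => v ⊆ T)).card := by
    refine Finset.card_bij' (fun w _ => univ.filter (fun j => w j = true))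
      (fun T _ => fun j => decide (j ∈ T)) ?_ ?_ ?_ ?_
    · intro w hw
      rw [mem_filter] at hw
      rw [mem_filter, mem_powersetCard]
      refine ⟨⟨Finset.subset_univ _, hw.2.1⟩, fun j hj => ?_⟩
      rw [mem_filter]
      exact ⟨mem_univ _, hw.2.2 j hj⟩
    · intro T hT
      rw [mem_filter, mem_powersetCard] at hT
      rw [mem_filter]
      refine ⟨mem_univ _, ?_, fun j hj => decide_eq_true (hT.2 hj)⟩
      unfold wgt
      rw [← hT.1.2]
      congr 1
      ext j
      simp
    · intro w _
      funext j
      simp
    · intro T _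
      ext j
      simp
  rw [h1, h2, div_eq_div_iff hc2.ne' hc1.ne']
  have h3 := card_sup (t := t) v
  rw [if_pos ht] at h3
  have h4 : ((J.choose v.card : ℕ) : ℝ) *
      (((powersetCard t (univ : Finset (Fin J))).filter (fun T => v ⊆ T)).card : ℝ) =
      (J.choose t : ℝ) * (t.choose v.card : ℝ) := by
    exact_mod_cast h3
  linarith

/-- the total mass -/
theorem sum_nu_one {J t : ℕ} (ht : t ≤ J) : ∑ w, nu J t w = 1 := by
  have h := sum_nu_mono ht (∅ : Finset (Fin J))
  simpa using h

/-- the binomial coefficient as a polynomial -/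
theorem choose_poly (a : ℕ) : ∃ q : Polynomial ℝ, q.natDegree ≤ a ∧
    ∀ t : ℕ, q.eval (t : ℝ) = (t.choose a : ℝ) := by
  refine ⟨C (1 / (a.factorial : ℝ)) * descPochhammer ℝ a, ?_, fun t => ?_⟩
  · refine (Polynomial.natDegree_C_mul_le _ _).trans ?_
    rw [descPochhammer_natDegree]
  · rw [eval_mul, eval_C, descPochhammer_eval_eq_descFactorial, Nat.descFactorial_eq_factorial_mul_choose]
    push_cast
    have : (a.factorial : ℝ) ≠ 0 := by exact_mod_cast Nat.factorial_ne_zero a
    field_simp

/-- the mean value of a character -/
theorem sum_nu_sgp {J : ℕ} (u : Finset (Fin J)) : ∃ q : Polynomial ℝ, q.natDegree ≤ u.card ∧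
    ∀ t ≤ J, ∑ w, nu J t w * (sgp u w : ℝ) = q.eval (t : ℝ) := by
  classical
  choose c hc1 hc2 using choose_poly
  refine ⟨∑ v ∈ u.powerset, C ((-2) ^ v.card / (J.choose v.card : ℝ)) * c v.card, ?_, ?_⟩
  · apply Polynomial.natDegree_sum_le_of_forall_le
    intro v hv
    refine (Polynomial.natDegree_C_mul_le _ _).trans ((hc1 _).trans ?_)
    exact Finset.card_le_card (Finset.mem_powerset.1 hv)
  · intro t ht
    have h1 : ∀ w : Fin J → Bool, (sgp u w : ℝ) =
        ∑ v ∈ u.powerset, (-2 : ℝ) ^ v.card * (if ∀ j ∈ v, w j = true then 1 else 0) := by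
      intro w
      have h2 : (sgp u w : ℝ) = ∏ j ∈ u, (1 + (-2 : ℝ) * (if w j = true then 1 else 0)) := by
        unfold sgp
        push_cast
        refine Finset.prod_congr rfl fun j _ => ?_
        unfold sgn
        cases w j <;> norm_num
      rw [h2, Finset.prod_one_add]
      refine Finset.sum_congr rfl fun v _ => ?_
      rw [Finset.prod_mul_distrib, Finset.prod_const]
      congr 1
      by_cases h3 : ∀ j ∈ v, w j = true
      · rw [if_pos h3]
        exact Finset.prod_eq_one fun j hj => if_pos (h3 j hj)
      · rw [if_neg h3]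
        push Not at h3
        obtain ⟨j, hj, h4⟩ := h3
        exact Finset.prod_eq_zero hj (if_neg h4)
    simp only [h1, Finset.mul_sum]
    rw [Finset.sum_comm, Polynomial.eval_finsetSum]
    refine Finset.sum_congr rfl fun v _ => ?_
    rw [eval_mul, eval_C, hc2, ← mul_div_right_comm, mul_div_assoc, ← sum_nu_mono ht v,
      Finset.mul_sum]
    refine Finset.sum_congr rfl fun w _ => ?_
    ring

end Pool.Agent.W895.GH
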