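import Pool.Agent.W895.GH.Diff
import Pool.Agent.W895.GH.Weight

/-!
# The functional of Minsky and Papert with a remainder at distant nodes
-/

set_option autoImplicit false

open Finset Polynomial

namespace Pool.Agent.W895.GH

open Pool.Agent.H554R2.Sem Pool.Agent.H554R2.Coin Pool.Agent.H554R2.Lin Pool.Agent.H554R2.Rnd
open Pool.Agent.H554R2.Qua Pool.Agent.H554R2.NC
open Pool.Agent.W895.PC (sgp abs_sgp)

/-- the weight of the group `i` at the point `x` of the curve -/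
def tt (i x : ℕ) : ℕ := ((x : ℤ) - (2 * i + 1)).natAbs ^ 2

theorem tt_cast (i x : ℕ) : ((tt i x : ℕ) : ℝ) = ((x : ℝ) - (2 * i + 1)) ^ 2 := by
  have h : ((tt i x : ℕ) : ℤ) = ((x : ℤ) - (2 * i + 1)) ^ 2 := by
    unfold tt
    push_cast
    rw [sq_abs]
  have h2 : (((tt i x : ℕ) : ℤ) : ℝ) = ((((x : ℤ) - (2 * i + 1)) ^ 2 : ℤ) : ℝ) := by rw [h]
  push_cast at h2
  exact h2

theorem tt_le {i x κ K : ℕ} (hi : i < κ) (hx : x ≤ K) (hK : 2 * κ ≤ K) : tt i x ≤ K ^ 2 := by
  unfold tt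
  apply Nat.pow_le_pow_left
  omega

/-- the product distribution at the point `x` of the curve -/
noncomputable def mu (κ J x : ℕ) (z : Fin κ → Fin J → Bool) : ℝ := ∏ i : Fin κ, nu J (tt i x) (z i)

theorem mu_nonneg (κ J x : ℕ) (z : Fin κ → Fin J → Bool) : 0 ≤ mu κ J x z :=
  Finset.prod_nonneg fun _ _ => nu_nonneg _ _ _

/-- sums of products -/
theorem sum_prod {κ J : ℕ} (f : Fin κ → (Fin J → Bool) → ℝ) :
    ∑ z : Fin κ → Fin J → Bool, ∏ i, f i (z i) = ∏ i, ∑ w, f i w := by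
  rw [Finset.prod_univ_sum, Fintype.piFinset_univ]

theorem sum_mu_one {κ J x : ℕ} (h : ∀ i : Fin κ, tt i x ≤ J) : ∑ z, mu κ J x z = 1 := by
  unfold mu
  rw [sum_prod]
  exact Finset.prod_eq_one fun i _ => sum_nu_one (h i)

/-- the mean value of a character is a polynomial on the curve -/
theorem sum_mu_sgp {κ J : ℕ} (u : Fin κ → Finset (Fin J)) : ∃ q : Polynomial ℝ,
    q.natDegree ≤ 2 * ∑ i, (u i).card ∧ ∀ x, (∀ i : Fin κ, tt i x ≤ J) →
    ∑ z, mu κ J x z * ∏ i, (sgp (u i) (z i) : ℝ) = q.eval (x : ℝ) := by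
  choose q hq1 hq2 using fun i => sum_nu_sgp (u i)
  refine ⟨∏ i : Fin κ, (q i).comp ((X - C (2 * (i : ℕ) + 1 : ℝ)) ^ 2), ?_, fun x hx => ?_⟩
  · refine (Polynomial.natDegree_prod_le _ _).trans ?_
    rw [Finset.mul_sum]
    refine Finset.sum_le_sum fun i _ => ?_
    refine Polynomial.natDegree_comp_le.trans ?_
    have h1 : ((X - C (2 * (i : ℕ) + 1 : ℝ)) ^ 2 : Polynomial ℝ).natDegree ≤ 2 := by
      refine Polynomial.natDegree_pow_le.trans ?_
      have := Polynomial.natDegree_X_sub_C_le (2 * (i : ℕ) + 1 : ℝ)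
      omega
    calc _ ≤ (u i).card * 2 := Nat.mul_le_mul (hq1 i) h1
      _ = _ := by ring
  · unfold mu
    simp only [← Finset.prod_mul_distrib]
    rw [sum_prod (fun (i : Fin κ) w => nu J (tt i x) w * (sgp (u i) w : ℝ)), Polynomial.eval_prod]
    refine Finset.prod_congr rfl fun i _ => ?_
    rw [hq2 i _ (hx i), Polynomial.eval_comp, tt_cast]
    congr 1
    simp

theorem dif_congr {r : ℕ} {f g : ℕ → ℝ} (h : ∀ x ≤ r, f x = g x) : dif r f = dif r g := by
  unfold dif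
  refine Finset.sum_congr rfl fun x hx => ?_
  rw [h x (by have := Finset.mem_range.1 hx; omega)]

/-- the functional -/
noncomputable def lam (κ J D M : ℕ) (a : ℕ → ℝ) (z : Fin κ → Fin J → Bool) : ℝ :=
  dif (2 * κ) (fun x => mu κ J x z) - ∑ i ∈ range (D + 1), a i * mu κ J (i * M) z

theorem sum_lam {κ J D M : ℕ} {a : ℕ → ℝ} {α : Type*} (s : Finset α)
    (pat : α → Fin κ → Fin J → Bool) (G : α → ℝ) :
    ∑ y ∈ s, lam κ J D M a (pat y) * G y =
      dif (2 * κ) (fun x => ∑ y ∈ s, mu κ J x (pat y) * G y) -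
        ∑ i ∈ range (D + 1), a i * ∑ y ∈ s, mu κ J (i * M) (pat y) * G y := by
  unfold lam
  simp only [sub_mul, Finset.sum_sub_distrib]
  congr 1
  · rw [dif_sum]
    refine Finset.sum_congr rfl fun y _ => ?_
    unfold dif
    rw [Finset.sum_mul]
    exact Finset.sum_congr rfl fun x _ => by ring
  · simp only [Finset.sum_mul, Finset.mul_sum]
    rw [Finset.sum_comm]
    exact Finset.sum_congr rfl fun i _ => Finset.sum_congr rfl fun y _ => by ring

/-- the functional vanishes on the functions of at most `L` of the bits of each group -/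
theorem func (κ L : ℕ) : ∃ B : ℝ, 0 ≤ B ∧ ∀ J M, 1 ≤ M →
    ((2 * κ * L + 2 * κ) * M) ^ 2 ≤ J → ∃ a : ℕ → ℝ, (∀ i, |a i| ≤ B / (M : ℝ) ^ (2 * κ)) ∧
    ∀ u : Fin κ → Finset (Fin J), (∀ i, (u i).card ≤ L) →
    ∑ z, lam κ J (2 * κ * L) M a z * ∏ i, (sgp (u i) (z i) : ℝ) = 0 := by
  obtain ⟨B, hB, h⟩ := diff_nodes (2 * κ) (2 * κ * L)
  refine ⟨B, hB, fun J M hM hJ => ?_⟩
  obtain ⟨a, ha1, ha2⟩ := h M hM
  refine ⟨a, ha1, fun u hu => ?_⟩
  obtain ⟨q, hq1, hq2⟩ := sum_mu_sgp u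
  have hK : 2 * κ ≤ (2 * κ * L + 2 * κ) * M :=
    (Nat.le_add_left _ _).trans (Nat.le_mul_of_pos_right _ hM)
  have hdeg : q.natDegree ≤ 2 * κ * L := by
    refine hq1.trans ?_
    have h1 : ∑ i, (u i).card ≤ ∑ _i : Fin κ, L := Finset.sum_le_sum fun i _ => hu i
    rw [Finset.sum_const, Finset.card_univ, Fintype.card_fin, smul_eq_mul] at h1
    nlinarith
  have hnear : ∀ x ≤ 2 * κ, ∑ z, mu κ J x z * ∏ i, (sgp (u i) (z i) : ℝ) = q.eval (x : ℝ) := by
    intro x hx
    exact hq2 x fun i => (tt_le i.2 (hx.trans hK) hK).trans hJ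
  have hfar : ∀ i ∈ range (2 * κ * L + 1), ∑ z, mu κ J (i * M) z * ∏ i, (sgp (u i) (z i) : ℝ) =
      q.eval ((i * M : ℕ) : ℝ) := by
    intro i hi
    apply hq2 (i * M)
    intro j
    refine (tt_le j.2 ?_ hK).trans hJ
    apply Nat.mul_le_mul_right
    have := Finset.mem_range.1 hi
    omega
  have h1 := sum_lam (D := 2 * κ * L) (M := M) (a := a) (univ : Finset (Fin κ → Fin J → Bool))
    (fun z => z) (fun z => ∏ i, (sgp (u i) (z i) : ℝ))
  rw [h1, dif_congr hnear, ha2 q hdeg, sub_eq_zero]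
  exact Finset.sum_congr rfl fun i hi => by rw [hfar i hi]

/-- the norm of the functional -/
theorem lam_norm {κ L J M : ℕ} {B : ℝ} {a : ℕ → ℝ} (hM : 1 ≤ M) (hB : 0 ≤ B)
    (hJ : ((2 * κ * L + 2 * κ) * M) ^ 2 ≤ J) (ha : ∀ i, |a i| ≤ B / (M : ℝ) ^ (2 * κ)) :
    ∑ z, |lam κ J (2 * κ * L) M a z| ≤ 2 ^ (2 * κ) + (2 * κ * L + 1) * B := by
  have hK : 2 * κ ≤ (2 * κ * L + 2 * κ) * M :=
    (Nat.le_add_left _ _).trans (Nat.le_mul_of_pos_right _ hM)
  have hM1 : (1 : ℝ) ≤ M := by exact_mod_cast hM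
  have h1 : ∀ z, |lam κ J (2 * κ * L) M a z| ≤
      ∑ x ∈ range (2 * κ + 1), ((2 * κ).choose x : ℝ) * mu κ J x z +
        ∑ i ∈ range (2 * κ * L + 1), B * mu κ J (i * M) z := by
    intro z
    unfold lam dif
    refine (abs_sub _ _).trans (add_le_add ?_ ?_)
    · refine (Finset.abs_sum_le_sum_abs _ _).trans (le_of_eq ?_)
      refine Finset.sum_congr rfl fun x _ => ?_
      rw [abs_mul, abs_mul, abs_pow, abs_neg, abs_one, one_pow, one_mul, Nat.abs_cast,
        abs_of_nonneg (mu_nonneg _ _ _ _)]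
    · refine (Finset.abs_sum_le_sum_abs _ _).trans ?_
      refine Finset.sum_le_sum fun i _ => ?_
      rw [abs_mul, abs_of_nonneg (mu_nonneg _ _ _ _)]
      apply mul_le_mul_of_nonneg_right _ (mu_nonneg _ _ _ _)
      exact (ha i).trans (div_le_self hB (one_le_pow₀ hM1))
  refine (Finset.sum_le_sum fun z _ => h1 z).trans (le_of_eq ?_)
  rw [Finset.sum_add_distrib, Finset.sum_comm, Finset.sum_comm (s := univ) (t := range _)]
  simp only [← Finset.mul_sum]
  congr 1
  · have h2 : ∀ x ∈ range (2 * κ + 1), ((2 * κ).choose x : ℝ) * ∑ z, mu κ J x z =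
        ((2 * κ).choose x : ℝ) := by
      intro x hx
      rw [sum_mu_one, mul_one]
      intro i
      refine (tt_le i.2 (le_trans ?_ hK) hK).trans hJ
      have := Finset.mem_range.1 hx
      omega
    rw [Finset.sum_congr rfl h2]
    have h3 := Nat.sum_range_choose (2 * κ)
    exact_mod_cast h3
  · have h2 : ∀ i ∈ range (2 * κ * L + 1), B * ∑ z, mu κ J (i * M) z = B := by
      intro i hi
      rw [sum_mu_one, mul_one]
      intro j
      refine (tt_le j.2 ?_ hK).trans hJ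
      apply Nat.mul_le_mul_right
      have := Finset.mem_range.1 hi
      omega
    rw [Finset.mul_sum, Finset.sum_congr rfl h2, Finset.sum_const, Finset.card_range,
      nsmul_eq_mul]
    push_cast
    ring

/-- each group has a one -/
def AllOnes {κ J : ℕ} (z : Fin κ → Fin J → Bool) : Prop := ∀ i, ∃ j, z i j = true

theorem mu_supp {κ J x : ℕ} {z : Fin κ → Fin J → Bool} (h : mu κ J x z ≠ 0) (i : Fin κ) :
    wgt (z i) = tt i x := by
  have h1 := Finset.prod_ne_zero_iff.1 h i (Finset.mem_univ _)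
  unfold nu at h1
  by_contra h2
  rw [if_neg h2] at h1
  exact h1 rfl

theorem wgt_pos {J : ℕ} {w : Fin J → Bool} : (∃ j, w j = true) ↔ 0 < wgt w := by
  unfold wgt
  rw [Finset.card_pos]
  constructor
  · rintro ⟨j, hj⟩
    exact ⟨j, by simpa using hj⟩
  · rintro ⟨j, hj⟩
    exact ⟨j, by simpa using hj⟩

/-- **The sign pattern.** -/
theorem lam_pos {κ D J M : ℕ} {a : ℕ → ℝ} {α : Type*} (s : Finset α)
    (pat : α → Fin κ → Fin J → Bool) (G : α → ℝ)
    (h1 : ∀ y ∈ s, AllOnes (pat y) → 1 / 2 ≤ G y) (h2 : ∀ y ∈ s, ¬ AllOnes (pat y) → G y ≤ -(1 / 2))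
    (W A V : ℝ) (hW : ∀ y ∈ s, |G y| ≤ W) (hW0 : 0 ≤ W) (ha : ∀ i, |a i| ≤ A) (hA : 0 ≤ A)
    (hV : ∀ i ∈ range (D + 1), ∑ y ∈ s, mu κ J (i * M) (pat y) ≤ V) :
    1 / 2 * ∑ y ∈ s, mu κ J 0 (pat y) ≤
      ∑ y ∈ s, lam κ J D M a (pat y) * G y + (D + 1) * (A * (W * V)) := by
  rw [sum_lam]
  have hmain : 1 / 2 * ∑ y ∈ s, mu κ J 0 (pat y) ≤
      dif (2 * κ) (fun x => ∑ y ∈ s, mu κ J x (pat y) * G y) := by
    unfold dif
    have hev : ∀ x, x % 2 = 0 → 1 / 2 * ∑ y ∈ s, mu κ J x (pat y) ≤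
        ∑ y ∈ s, mu κ J x (pat y) * G y := by
      intro x hx
      rw [Finset.mul_sum]
      refine Finset.sum_le_sum fun y hy => ?_
      by_cases h0 : mu κ J x (pat y) = 0
      · rw [h0, mul_zero, zero_mul]
      · have h3 : AllOnes (pat y) := by
          intro i
          rw [wgt_pos, mu_supp h0 i]
          unfold tt
          apply Nat.pow_pos
          omega
        have h4 := h1 y hy h3
        have h5 := mu_nonneg κ J x (pat y)
        nlinarith
    have hod : ∀ x, x % 2 = 1 → x ≤ 2 * κ → ∑ y ∈ s, mu κ J x (pat y) * G y ≤ 0 := by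
      intro x hx hx2
      refine Finset.sum_nonpos fun y hy => ?_
      by_cases h0 : mu κ J x (pat y) = 0
      · rw [h0, zero_mul]
      · have h3 : ¬ AllOnes (pat y) := by
          intro h3
          have h4 := h3 ⟨x / 2, by omega⟩
          rw [wgt_pos, mu_supp h0 ⟨x / 2, by omega⟩] at h4
          unfold tt at h4
          have h5 : (x : ℤ) - (2 * ((x / 2 : ℕ) : ℤ) + 1) = 0 := by omega
          simp only at h4
          rw [h5] at h4
          simp at h4
        have h4 := h2 y hy h3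
        have h5 := mu_nonneg κ J x (pat y)
        nlinarith
    rw [Finset.sum_range_succ']
    have hrest : 0 ≤ ∑ k ∈ range (2 * κ), (-1 : ℝ) ^ (2 * κ - (k + 1)) *
        ((2 * κ).choose (k + 1) : ℝ) * ∑ y ∈ s, mu κ J (k + 1) (pat y) * G y := by
      refine Finset.sum_nonneg fun k hk => ?_
      have hk' := Finset.mem_range.1 hk
      rcases Nat.mod_two_eq_zero_or_one (k + 1) with h3 | h3
      · have h4 : Even (2 * κ - (k + 1)) := by
          rw [Nat.even_iff]
          omega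
        rw [h4.neg_one_pow, one_mul]
        refine mul_nonneg (Nat.cast_nonneg _) ?_
        have h5 := hev (k + 1) h3
        have h6 : 0 ≤ ∑ y ∈ s, mu κ J (k + 1) (pat y) := Finset.sum_nonneg fun _ _ =>
          mu_nonneg _ _ _ _
        linarith
      · have h4 : Odd (2 * κ - (k + 1)) := by
          rw [Nat.odd_iff]
          omega
        rw [h4.neg_one_pow]
        have h5 := hod (k + 1) h3 (by omega)
        have h6 : (0 : ℝ) ≤ ((2 * κ).choose (k + 1) : ℝ) := Nat.cast_nonneg _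
        nlinarith
    have hzero := hev 0 rfl
    have h3 : (-1 : ℝ) ^ (2 * κ - 0) = 1 := by
      rw [Nat.sub_zero, pow_mul]
      norm_num
    rw [h3, Nat.choose_zero_right, Nat.cast_one, one_mul, one_mul]
    linarith
  have hfar : |∑ i ∈ range (D + 1), a i * ∑ y ∈ s, mu κ J (i * M) (pat y) * G y| ≤
      (D + 1) * (A * (W * V)) := by
    refine (Finset.abs_sum_le_sum_abs _ _).trans ?_
    have h3 : ∀ i ∈ range (D + 1), |a i * ∑ y ∈ s, mu κ J (i * M) (pat y) * G y| ≤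
        A * (W * V) := by
      intro i hi
      rw [abs_mul]
      apply mul_le_mul (ha i) _ (abs_nonneg _) hA
      refine (Finset.abs_sum_le_sum_abs _ _).trans ?_
      have h4 : ∀ y ∈ s, |mu κ J (i * M) (pat y) * G y| ≤ W * mu κ J (i * M) (pat y) := by
        intro y hy
        rw [abs_mul, abs_of_nonneg (mu_nonneg _ _ _ _), mul_comm]
        exact mul_le_mul_of_nonneg_right (hW y hy) (mu_nonneg _ _ _ _)
      refine (Finset.sum_le_sum h4).trans ?_
      rw [← Finset.mul_sum]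
      exact mul_le_mul_of_nonneg_left (hV i hi) hW0
    refine (Finset.sum_le_sum h3).trans (le_of_eq ?_)
    rw [Finset.sum_const, Finset.card_range, nsmul_eq_mul]
    push_cast
    ring
  have h4 := (abs_le.1 hfar).2
  linarith

end Pool.Agent.W895.GH
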