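import Pool.Agent.W895.GH.Fix

/-!
# One family of functions for all constants
-/

set_option autoImplicit false

open Finset

namespace Pool.Agent.W895.GH

open Pool.Agent.H554R2.Sem Pool.Agent.H554R2.Coin
open Pool.Agent.W895.PC (NoPP noPP_mono)

/-- **One family for all constants, and slowly growing exponents.** -/
theorem guess_family (β : ℕ → ℕ) (hβ : Filter.Tendsto β Filter.atTop Filter.atTop) :
    ∃ B : ℕ → ℕ, Filter.Tendsto B Filter.atTop Filter.atTop ∧ ∀ κ J : ℕ → ℕ,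
      (∃ N, ∀ n ≥ N, 1 ≤ κ n ∧ κ n ≤ B n ∧ 1 ≤ J n ∧ β n * J n ≤ n) →
      ∃ F : ∀ n, Pt n → Bool, ∀ k, ∃ N, ∀ n ≥ N,
        OnePassGuess n (J n ^ κ n) (n ^ 2) (F n) ∧
        ∀ S, n ≤ 2 ^ S → β n * (J n * S) ≤ n → ∀ I, β n * (I + 1) ≤ J n ^ κ n →
          NoPP k S I (F n) := by
  classical
  have hex : ∀ κ k : ℕ, ∃ D : ℕ, 1 ≤ D ∧ (1 ≤ κ → ∀ n J, D * (J + 1) ≤ n → 1 ≤ J →
      ∃ F : Pt n → Bool, OnePassGuess n (J ^ κ) (n ^ 2) F ∧
      ∀ S, n ≤ 2 ^ S → D * (J * S) ≤ n → ∀ I, D * (I + 1) ≤ J ^ κ → NoPP k S I F) := by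
    intro κ k
    by_cases h : 1 ≤ κ
    · obtain ⟨D, h1, h2⟩ := fixed κ k h
      exact ⟨D, h1, fun _ => h2⟩
    · exact ⟨1, le_rfl, fun h' => absurd h' h⟩
  choose D hD1 hD2 using hex
  obtain ⟨T, hT⟩ : ∃ T : ℕ → ℕ, T = fun c => ∑ i ∈ range (c + 1), ∑ j ∈ range (c + 1), D i j :=
    ⟨_, rfl⟩
  have hDT : ∀ c i j, i ≤ c → j ≤ c → D i j ≤ T c := by
    intro c i j hi hj
    rw [hT]
    calc D i j ≤ ∑ j ∈ range (c + 1), D i j :=
          Finset.single_le_sum (f := fun j => D i j) (fun _ _ => Nat.zero_le _)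
            (Finset.mem_range.2 (by omega))
      _ ≤ _ := Finset.single_le_sum (f := fun i => ∑ j ∈ range (c + 1), D i j)
            (fun _ _ => Nat.zero_le _) (Finset.mem_range.2 (by omega))
  obtain ⟨B, hB⟩ : ∃ B : ℕ → ℕ, B = fun n => Nat.findGreatest (fun c => 2 * T c ≤ β n) n :=
    ⟨_, rfl⟩
  have hBc : ∀ c, ∃ N, ∀ n ≥ N, c ≤ B n := by
    intro c
    obtain ⟨N, hN⟩ := Filter.eventually_atTop.1 (hβ.eventually_ge_atTop (2 * T c))
    refine ⟨N + c, fun n hn => ?_⟩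
    rw [hB]
    exact Nat.le_findGreatest (by omega) (hN n (by omega))
  refine ⟨B, ?_, fun κ J hκJ => ?_⟩
  · rw [Filter.tendsto_atTop_atTop]
    intro c
    obtain ⟨N, hN⟩ := hBc c
    exact ⟨N, fun n hn => hN n hn⟩
  obtain ⟨N0, hN0⟩ := hκJ
  have hgood : ∀ n, N0 ≤ n → ∃ F : Pt n → Bool, OnePassGuess n (J n ^ κ n) (n ^ 2) F ∧
      ∀ S, n ≤ 2 ^ S → β n * (J n * S) ≤ n → ∀ I, β n * (I + 1) ≤ J n ^ κ n →
        NoPP (B n) S I F := by
    intro n hn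
    obtain ⟨h1, h2, h3, h4⟩ := hN0 n hn
    have h5 : 2 * T (B n) ≤ β n := by
      have hB0 : B n ≠ 0 := by omega
      have h6 : B n = Nat.findGreatest (fun c => 2 * T c ≤ β n) n := by rw [hB]
      exact Nat.findGreatest_of_ne_zero (P := fun c => 2 * T c ≤ β n) h6.symm hB0
    have h6 : D (κ n) (B n) ≤ T (B n) := hDT _ _ _ h2 le_rfl
    have h7 : 2 * D (κ n) (B n) ≤ β n := by omega
    obtain ⟨F, hF1, hF2⟩ := hD2 (κ n) (B n) h1 n (J n) (by
      calc D (κ n) (B n) * (J n + 1) ≤ D (κ n) (B n) * (2 * J n) :=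
            Nat.mul_le_mul_left _ (by omega)
        _ = 2 * D (κ n) (B n) * J n := by ring
        _ ≤ β n * J n := Nat.mul_le_mul_right _ h7
        _ ≤ n := h4) h3
    refine ⟨F, hF1, fun S hS hS2 I hI => hF2 S hS ?_ I ?_⟩
    · exact (Nat.mul_le_mul_right _ (by omega)).trans hS2
    · exact (Nat.mul_le_mul_right _ (by omega)).trans hI
  refine ⟨fun n => if h : N0 ≤ n then (hgood n h).choose else fun _ => false, fun k => ?_⟩
  obtain ⟨N1, hN1⟩ := hBc k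
  refine ⟨N0 + N1, fun n hn => ?_⟩
  have h : N0 ≤ n := by omega
  simp only [dif_pos h]
  have hs := (hgood n h).choose_spec
  exact ⟨hs.1, fun S hS hS2 I hI => noPP_mono (hN1 n (by omega)) (hs.2 S hS hS2 I hI)⟩

end Pool.Agent.W895.GH
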