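import Pool.Agent.W895.GH.Block
import Pool.Agent.H554R2.NC.Joint

/-!
# The nondeterministic one-pass programs
-/

set_option autoImplicit false

open Finset

namespace Pool.Agent.W895.GH

open Pool.Agent.H554R2.Sem Pool.Agent.H554R2.Coin Pool.Agent.H554R2.Lin Pool.Agent.H554R2.Rnd
open Pool.Agent.H554R2.Qua Pool.Agent.H554R2.NC
open Pool.Agent.W895.PC (Lift)

/-- renaming of the variables -/
def ren {ι ι' β : Type} (f : ι → ι') (P : BP ι β) : BP ι' β where
  State := P.State
  start := P.start
  node := fun s => match P.node s with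
    | Sum.inl (i, nxt) => Sum.inl (f i, nxt)
    | Sum.inr b => Sum.inr b

theorem ren_walk {ι ι' β : Type} (f : ι → ι') (P : BP ι β) (x : ι' → Bool) (l : List ι)
    (s v : P.State) (h : P.Walk (fun i => x (f i)) s l v) : (ren f P).Walk x s (l.map f) v := by
  induction l generalizing s with
  | nil => exact h
  | cons i l ih =>
    obtain ⟨nxt, h1, h2⟩ := h
    refine ⟨nxt, ?_, ih _ h2⟩
    show (match P.node s with
      | Sum.inl (i, nxt) => Sum.inl (f i, nxt)
      | Sum.inr b => Sum.inr b) = _
    rw [h1]
    rfl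

theorem ren_comp {ι ι' β : Type} (f : ι → ι') (P : BP ι β) (x : ι' → Bool) (l : List ι) (b : β)
    (h : P.Comp (fun i => x (f i)) l b) : (ren f P).Comp x (l.map f) b := by
  obtain ⟨v, h1, h2⟩ := h
  refine ⟨v, ren_walk f P x l _ _ h1, ?_⟩
  show (match P.node v with
      | Sum.inl (i, nxt) => Sum.inl (f i, nxt)
      | Sum.inr b => Sum.inr b) = _
  rw [h2]
  rfl

/-- the conjunction of programs with disjoint sets of variables in one pass -/
theorem and_program {n M : ℕ} (Q : ℕ → BP (Fin n) Bool) (l : ℕ → List (Fin n))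
    (b : ℕ → Pt n → Bool) (hQ : ∀ i, Fintype.card (Q i).State ≤ M) (hl : ∀ i, (l i).Nodup)
    (hd : ∀ i j, i ≠ j → List.Disjoint (l i) (l j)) (hb : ∀ i x, (Q i).Comp x (l i) (b i x))
    (t : ℕ) : ∃ (P : BP (Fin n) Bool) (L : List (Fin n)), Fintype.card P.State ≤ 2 * t * M + 1 ∧
      L.Nodup ∧ (∀ v ∈ L, ∃ i < t, v ∈ l i) ∧
      ∀ x, P.Comp x L (decide (∀ i < t, b i x = true)) := by
  induction t with
  | zero =>
    refine ⟨⟨Unit, (), fun _ => Sum.inr true⟩, [], by simp, List.nodup_nil, by simp, fun x => ?_⟩
    exact ⟨(), rfl, by simp⟩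
  | succ t ih =>
    obtain ⟨P, L, h1, h2, h3, h4⟩ := ih
    refine ⟨R5_seq P (fun c => N7_out (Q t) (fun o => c && o)), L ++ l t, ?_, ?_, ?_, ?_⟩
    · have e1 : Fintype.card (R5_seq P (fun c => N7_out (Q t) (fun o => c && o))).State =
          Fintype.card (P.State ⊕ (Σ _ : Bool, (Q t).State)) := Fintype.card_congr (Equiv.refl _)
      rw [e1, Fintype.card_sum, Fintype.card_sigma, Fintype.sum_bool]
      have := hQ t
      have e2 : 2 * (t + 1) * M = 2 * t * M + 2 * M := by ring
      omega
    · refine List.Nodup.append h2 (hl t) ?_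
      intro v hv hv'
      obtain ⟨i, hi, hi2⟩ := h3 v hv
      exact hd i t (by omega) hi2 hv'
    · intro v hv
      rw [List.mem_append] at hv
      rcases hv with hv | hv
      · obtain ⟨i, hi, hi2⟩ := h3 v hv
        exact ⟨i, by omega, hi2⟩
      · exact ⟨t, by omega, hv⟩
    · intro x
      have h5 := R5_seq_comp P (fun c => N7_out (Q t) (fun o => c && o)) x _ _ _ _ (h4 x)
        (N7_out_comp (Q t) (fun o => decide (∀ i < t, b i x = true) && o) x _ _ (hb t x))
      have h6 : decide (∀ i < t + 1, b i x = true) =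
          (decide (∀ i < t, b i x = true) && b t x) := by
        rw [Bool.eq_iff_iff, Bool.and_eq_true, decide_eq_true_iff, decide_eq_true_iff]
        constructor
        · exact fun h => ⟨fun i hi => h i (by omega), h t (by omega)⟩
        · rintro ⟨h, h'⟩ i hi
          rcases Nat.lt_succ_iff_lt_or_eq.1 hi with hi | hi
          · exact h i hi
          · rw [hi]
            exact h'
      rw [h6]
      exact h5

/-- The function `f` is accepted with `I` possible sequences of guesses in one pass: there are `I`
programs with at most `M` nodes, each of which reads on all inputs the same variables in the same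
order, each variable at most once, and `f x` is true if and only if one of them accepts `x`. -/
def OnePassGuess (n I M : ℕ) (f : Pt n → Bool) : Prop :=
  ∃ P : Fin I → BP (Fin n) Bool,
    (∀ ω, Fintype.card (P ω).State ≤ M ∧
      ∃ l : List (Fin n), l.Nodup ∧ ∀ x : Pt n, ∃ b, (P ω).Comp x l b) ∧
    ∀ x, f x = true ↔ ∃ ω l, (P ω).Comp x l true

open Classical in
/-- **The upper bound.** -/
theorem one_pass {κ m n K L C J : ℕ} {e : Fin κ × Fin m → Fin n} (he : Function.Injective e)
    {p : Pt m → Fin J → Bool} (hp : Lift K 1 L C J m p) (T : ℕ)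
    (hT : 2 * κ * (C * (J + 1) * m) + 1 ≤ T) (hκ : 1 ≤ C * (J + 1) * m) :
    OnePassGuess n (J ^ κ) T (fun x => decide (AllOnes (pat e p x))) := by
  choose P l hP1 hP2 hP3 using hp.prog
  have hex : ∀ c : Fin κ → Fin J, ∃ (U : BP (Fin n) Bool) (L : List (Fin n)),
      Fintype.card U.State ≤ T ∧ L.Nodup ∧
      ∀ x, U.Comp x L (decide (∀ i, p (bl e x i) (c i) = true)) := by
    intro c
    obtain ⟨Q, hQ⟩ : ∃ Q : ℕ → BP (Fin n) Bool, Q = fun i => if h : i < κ then
      ren (fun a => e (⟨i, h⟩, a)) (P (c ⟨i, h⟩)) else ⟨Unit, (), fun _ => Sum.inr true⟩ := ⟨_, rfl⟩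
    obtain ⟨ll, hll⟩ : ∃ ll : ℕ → List (Fin n), ll = fun i => if h : i < κ then
      (l (c ⟨i, h⟩)).map (fun a => e (⟨i, h⟩, a)) else [] := ⟨_, rfl⟩
    obtain ⟨b, hb⟩ : ∃ b : ℕ → Pt n → Bool, b = fun i x => if h : i < κ then
      p (bl e x ⟨i, h⟩) (c ⟨i, h⟩) else true := ⟨_, rfl⟩
    obtain ⟨U, LL, h1, h2, -, h4⟩ := and_program (M := C * (J + 1) * m) Q ll b
      (by
        intro i
        rw [hQ]
        by_cases h : i < κ
        · simp only [dif_pos h]
          exact hP1 _
        · simp only [dif_neg h]
          show Fintype.card Unit ≤ _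
          rw [Fintype.card_unit]
          exact hκ)
      (by
        intro i
        rw [hll]
        by_cases h : i < κ
        · simp only [dif_pos h]
          exact (hP2 _).map fun a a' haa => (Prod.ext_iff.1 (he haa)).2
        · simp only [dif_neg h]
          exact List.nodup_nil)
      (by
        intro i j hij v hv hv'
        rw [hll] at hv hv'
        by_cases h : i < κ
        · by_cases h' : j < κ
          · simp only [dif_pos h] at hv
            simp only [dif_pos h'] at hv'
            rw [List.mem_map] at hv hv'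
            obtain ⟨a, -, ha⟩ := hv
            obtain ⟨a', -, ha'⟩ := hv'
            have h5 := (Prod.ext_iff.1 (he (ha.trans ha'.symm))).1
            exact hij (congrArg Fin.val h5)
          · simp only [dif_neg h'] at hv'
            simp at hv'
        · simp only [dif_neg h] at hv
          simp at hv)
      (by
        intro i x
        rw [hQ, hll, hb]
        by_cases h : i < κ
        · simp only [dif_pos h]
          exact ren_comp _ _ x _ _ (hP3 _ _)
        · simp only [dif_neg h]
          exact ⟨(), rfl, rfl⟩) κ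
    refine ⟨U, LL, h1.trans hT, h2, fun x => ?_⟩
    have h5 : decide (∀ i, p (bl e x i) (c i) = true) = decide (∀ i < κ, b i x = true) := by
      rw [Bool.eq_iff_iff, decide_eq_true_iff, decide_eq_true_iff, hb]
      constructor
      · intro h i hi
        simp only [dif_pos hi]
        exact h ⟨i, hi⟩
      · intro h i
        have := h i.val i.2
        simp only [dif_pos i.2] at this
        exact this
    rw [h5]
    exact h4 x
  choose U LL hU1 hU2 hU3 using hex
  refine ⟨fun ω => U (finFunctionFinEquiv.symm ω), fun ω => ⟨hU1 _, LL _, hU2 _,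
    fun x => ⟨_, hU3 _ x⟩⟩, fun x => ?_⟩
  rw [decide_eq_true_iff]
  constructor
  · intro h
    choose c hc using h
    refine ⟨finFunctionFinEquiv c, LL c, ?_⟩
    show (U (finFunctionFinEquiv.symm (finFunctionFinEquiv c))).Comp x (LL c) true
    rw [Equiv.symm_apply_apply]
    have h1 := hU3 c x
    rw [decide_eq_true (show ∀ i, p (bl e x i) (c i) = true from hc)] at h1
    exact h1
  · rintro ⟨ω, l', h⟩
    have h1 := R25_comp_det _ x h (hU3 _ x)
    have h2 : ∀ i, p (bl e x i) (finFunctionFinEquiv.symm ω i) = true :=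
      of_decide_eq_true h1.symm
    exact fun i => ⟨_, h2 i⟩

end Pool.Agent.W895.GH
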