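import Pool.Agent.W895.GH.Main
import Pool.Agent.W895.GH.Prog

/-!
# Fixed parameters
-/

set_option autoImplicit false

open Finset

namespace Pool.Agent.W895.GH

open Pool.Agent.H554R2.Sem Pool.Agent.H554R2.Coin Pool.Agent.H554R2.Lin Pool.Agent.H554R2.Rnd
open Pool.Agent.H554R2.Qua Pool.Agent.H554R2.NC
open Pool.Agent.W895.LT (AccIn)
open Pool.Agent.W895.PC (sgp Lift NoPP lift)

open Classical in
/-- **Guesses against coin tosses, fixed parameters.** -/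
theorem fixed (κ k : ℕ) (hκ : 1 ≤ κ) : ∃ D : ℕ, 1 ≤ D ∧ ∀ n J, D * (J + 1) ≤ n → 1 ≤ J →
    ∃ F : Pt n → Bool, OnePassGuess n (J ^ κ) (n ^ 2) F ∧
    ∀ S, n ≤ 2 ^ S → D * (J * S) ≤ n → ∀ I, D * (I + 1) ≤ J ^ κ → NoPP k S I F := by
  obtain ⟨K, hK⟩ : ∃ K, K = 2 * κ * (k + 1) := ⟨_, rfl⟩
  obtain ⟨L, C, hL, hC, hlift⟩ := lift K 1
  obtain ⟨B, hB, hfunc⟩ := func κ L
  obtain ⟨K1, hK1⟩ : ∃ K1, K1 = 2 * κ * L + 2 * κ := ⟨_, rfl⟩
  obtain ⟨R, hR⟩ : ∃ R : ℕ, (8 * (4 / 3) ^ κ * (2 ^ (2 * κ) + (2 * κ * L + 1) * B) +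
      8 * (4 / 3) ^ κ * ((2 * κ * L + 1) * B * (5 / 4) ^ κ) : ℝ) ≤ R := exists_nat_ge _
  obtain ⟨X, hX⟩ : ∃ X, X = (R + 1 + 2 * κ) * (C * (k + 11)) := ⟨_, rfl⟩
  obtain ⟨D, hD⟩ : ∃ D, D = κ * C + κ * X + (R + 1) * (4 * K1 ^ 2) ^ κ + 2 * C + 3 := ⟨_, rfl⟩
  refine ⟨D, by omega, fun n J hn hJ1 => ?_⟩
  have hDn : D ≤ n := (Nat.le_mul_of_pos_right _ (by omega)).trans hn
  have hn1 : 1 ≤ n := by omega
  obtain ⟨m, hm⟩ : ∃ m, m = n / κ := ⟨_, rfl⟩
  have hCm : C * (J + 1) ≤ m := by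
    rw [hm, Nat.le_div_iff_mul_le (by omega)]
    calc C * (J + 1) * κ = κ * C * (J + 1) := by ring
      _ ≤ D * (J + 1) := Nat.mul_le_mul_right _ (by omega)
      _ ≤ n := hn
  have hm1 : 1 ≤ m := by
    have : 1 ≤ C * (J + 1) := Nat.mul_pos (by omega) (by omega)
    omega
  have hmn : m ≤ n := by rw [hm]; exact Nat.div_le_self _ _
  have hκm : κ * m ≤ n := by rw [hm]; exact Nat.mul_div_le _ _
  have hnm : n < κ * (m + 1) := by
    rw [hm]
    exact Nat.lt_mul_div_succ n (by omega)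
  have hKm : (k + 1) * n ≤ K * m := by
    have h1 : n ≤ 2 * κ * m := by nlinarith
    calc (k + 1) * n ≤ (k + 1) * (2 * κ * m) := Nat.mul_le_mul_left _ h1
      _ = K * m := by rw [hK]; ring
  obtain ⟨p, hp⟩ := hlift m J hCm
  obtain ⟨e, he⟩ : ∃ e : Fin κ × Fin m → Fin n, Function.Injective e :=
    ⟨fun c => Fin.castLE hκm (finProdFinEquiv c),
      (Fin.castLE_injective hκm).comp finProdFinEquiv.injective⟩
  refine ⟨fun x => decide (AllOnes (pat e p x)), one_pass he hp _ ?_ ?_, ?_⟩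
  · have h1 : (2 * C + 1) * (J + 1) ≤ n :=
      (Nat.mul_le_mul_right _ (by omega : 2 * C + 1 ≤ D)).trans hn
    have h2 : 2 * κ * (C * (J + 1) * m) ≤ 2 * C * (J + 1) * n := by
      calc 2 * κ * (C * (J + 1) * m) = 2 * C * (J + 1) * (κ * m) := by ring
        _ ≤ _ := Nat.mul_le_mul_left _ hκm
    have h3 : 2 * C * (J + 1) + 1 ≤ n := by nlinarith
    calc 2 * κ * (C * (J + 1) * m) + 1 ≤ 2 * C * (J + 1) * n + n := by omega
      _ = (2 * C * (J + 1) + 1) * n := by ring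
      _ ≤ n * n := Nat.mul_le_mul_right _ h3
      _ = n ^ 2 := by ring
  · exact Nat.mul_pos (Nat.mul_pos (by omega) (by omega)) hm1
  · intro S hS hDS I hI τ hτ I' θ P hI' hP
    by_contra hcon
    push Not at hcon
    have hS1 : 1 ≤ S := by
      by_contra h0
      have h1 : S = 0 := by omega
      subst h1
      have : n ≤ 1 := by simpa using hS
      omega
    -- the threshold
    obtain ⟨θ', hθ1, hθ2⟩ : ∃ θ' : ℕ, θ' ≤ I' + 1 ∧
        ∀ x, AllOnes (pat e p x) ↔ θ' ≤ Nat.card {ω // AccIn (P ω) τ x} := by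
      refine ⟨min θ (I' + 1), min_le_right _ _, fun x => ?_⟩
      have h0 := hcon x
      rw [decide_eq_true_iff] at h0
      rw [h0]
      have h1 : Nat.card {ω // AccIn (P ω) τ x} ≤ I' := by
        rw [Nat.card_eq_fintype_card]
        refine (Fintype.card_subtype_le _).trans ?_
        rw [Fintype.card_fin]
      omega
    -- the scale
    obtain ⟨s, hs⟩ : ∃ s, s = Nat.sqrt J := ⟨_, rfl⟩
    have hs1 : s * s ≤ J := by rw [hs]; exact Nat.sqrt_le J
    have hs2 : J < (s + 1) * (s + 1) := by rw [hs]; exact Nat.lt_succ_sqrt J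
    obtain ⟨M, hM⟩ : ∃ M, M = s / K1 := ⟨_, rfl⟩
    have hK1pos : 1 ≤ K1 := by rw [hK1]; omega
    have hpow1 : 1 ≤ (4 * K1 ^ 2) ^ κ := Nat.one_le_pow _ _ (by positivity)
    have hDR : (R + 1) * (4 * K1 ^ 2) ^ κ < D := by omega
    have hsK : K1 ≤ s := by
      by_contra h0
      have h1 : J < K1 * K1 := by
        have : s + 1 ≤ K1 := by omega
        exact hs2.trans_le (Nat.mul_le_mul this this)
      have h2 : J ^ κ ≤ (4 * K1 ^ 2) ^ κ := Nat.pow_le_pow_left (by nlinarith) κ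
      have h3 : D ≤ D * (I + 1) := Nat.le_mul_of_pos_right _ (by omega)
      have h4 : (4 * K1 ^ 2) ^ κ ≤ (R + 1) * (4 * K1 ^ 2) ^ κ := Nat.le_mul_of_pos_left _ (by omega)
      omega
    have hM1 : 1 ≤ M := by
      rw [hM]
      exact (Nat.one_le_div_iff (by omega)).2 hsK
    have hKM : K1 * M ≤ s := by rw [hM]; exact Nat.mul_div_le _ _
    have hsM : s < K1 * (M + 1) := by rw [hM]; exact Nat.lt_mul_div_succ s (by omega)
    have hJM : ((2 * κ * L + 2 * κ) * M) ^ 2 ≤ J := by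
      rw [← hK1, pow_two]
      exact (Nat.mul_le_mul hKM hKM).trans hs1
    have hJle : J ≤ 4 * K1 ^ 2 * M ^ 2 := by
      have h1 : s + 1 ≤ 2 * K1 * M := by nlinarith
      have h2 : (s + 1) * (s + 1) ≤ (2 * K1 * M) * (2 * K1 * M) := Nat.mul_le_mul h1 h1
      have h3 : (2 * K1 * M) * (2 * K1 * M) = 4 * K1 ^ 2 * M ^ 2 := by ring
      omega
    -- the number of the programs
    have hRI : (R + 1) * (I + 1) ≤ M ^ (2 * κ) := by
      have h1 : J ^ κ ≤ (4 * K1 ^ 2) ^ κ * M ^ (2 * κ) := by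
        refine (Nat.pow_le_pow_left hJle κ).trans (le_of_eq ?_)
        rw [mul_pow, ← pow_mul M 2 κ]
      have h2 : (R + 1) * (4 * K1 ^ 2) ^ κ * (I + 1) ≤ D * (I + 1) :=
        Nat.mul_le_mul_right _ hDR.le
      have h3 : (4 * K1 ^ 2) ^ κ * ((R + 1) * (I + 1)) ≤ (4 * K1 ^ 2) ^ κ * M ^ (2 * κ) := by
        calc _ = (R + 1) * (4 * K1 ^ 2) ^ κ * (I + 1) := by ring
          _ ≤ D * (I + 1) := h2
          _ ≤ J ^ κ := hI
          _ ≤ _ := h1
      exact Nat.le_of_mul_le_mul_left h3 hpow1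
    have hIJ : I + 1 ≤ 2 ^ (κ * J) := by
      have h1 : I + 1 ≤ J ^ κ := (Nat.le_mul_of_pos_left _ (by omega)).trans hI
      have h2 : J ^ κ ≤ (2 ^ J) ^ κ := Nat.pow_le_pow_left Nat.lt_two_pow_self.le κ
      rw [← pow_mul, mul_comm J κ] at h2
      exact h1.trans h2
    -- the error
    have hE : (R : ℝ) * ((2 * I + 1) * 2 ^ (κ * J)) ≤ 2 ^ (m / (C * (S * (k + 11)))) := by
      have h1 : (R + 1 + 2 * κ) * J ≤ m / (C * (S * (k + 11))) := by
        have hpos : 0 < C * (S * (k + 11)) := Nat.mul_pos hC (Nat.mul_pos hS1 (by omega))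
        rw [Nat.le_div_iff_mul_le hpos, hm, Nat.le_div_iff_mul_le (by omega)]
        calc (R + 1 + 2 * κ) * J * (C * (S * (k + 11))) * κ = κ * X * (J * S) := by
              rw [hX]; ring
          _ ≤ D * (J * S) := Nat.mul_le_mul_right _ (by omega)
          _ ≤ n := hDS
      have h2 : R * ((2 * I + 1) * 2 ^ (κ * J)) ≤ 2 ^ ((R + 1 + 2 * κ) * J) := by
        have h3 : R ≤ 2 ^ R := Nat.lt_two_pow_self.le
        have h4 : 2 * I + 1 ≤ 2 * 2 ^ (κ * J) := by omega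
        calc R * ((2 * I + 1) * 2 ^ (κ * J)) ≤ 2 ^ R * (2 * 2 ^ (κ * J) * 2 ^ (κ * J)) :=
              Nat.mul_le_mul h3 (Nat.mul_le_mul_right _ h4)
          _ = 2 ^ (R + 1 + κ * J + κ * J) := by rw [pow_add, pow_add, pow_add]; ring
          _ ≤ _ := by
            apply Nat.pow_le_pow_right (by norm_num)
            have : R + 1 ≤ (R + 1) * J := Nat.le_mul_of_pos_right _ hJ1
            have h5 : (R + 1 + 2 * κ) * J = (R + 1) * J + κ * J + κ * J := by ring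
            omega
      have h3 : R * ((2 * I + 1) * 2 ^ (κ * J)) ≤ 2 ^ (m / (C * (S * (k + 11)))) :=
        h2.trans (Nat.pow_le_pow_right (by norm_num) h1)
      exact_mod_cast h3
    obtain ⟨a, ha1, ha2⟩ := hfunc J M hM1 hJM
    have hmain := core he hp hKm hn1 hmn hB hM1 hJM a ha1 ha2 S hS hS1 τ hτ I' θ' P hP hθ1 hθ2
    -- the end
    obtain ⟨E, hEd⟩ : ∃ E : ℝ, E = 2 ^ (m / (C * (S * (k + 11)))) := ⟨_, rfl⟩
    have hE0 : 0 < E := by rw [hEd]; positivity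
    rw [← hEd] at hmain hE
    obtain ⟨N, hN⟩ : ∃ N : ℝ, N = 2 ^ (2 * κ) + (2 * κ * L + 1) * B := ⟨_, rfl⟩
    obtain ⟨N', hN'⟩ : ∃ N' : ℝ, N' = (2 * κ * L + 1) * B * (5 / 4) ^ κ := ⟨_, rfl⟩
    have hN0 : 0 < N := by rw [hN]; positivity
    have hN'0 : 0 ≤ N' := by rw [hN']; positivity
    rw [← hN, ← hN'] at hR
    rw [← hN] at hmain
    obtain ⟨q, hq⟩ : ∃ q : ℝ, q = (3 / 4) ^ κ := ⟨_, rfl⟩
    have hq0 : 0 < q := by rw [hq]; positivity
    have hq1 : (4 / 3 : ℝ) ^ κ * q = 1 := by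
      rw [hq, ← mul_pow]
      norm_num
    obtain ⟨Mr, hMr⟩ : ∃ Mr : ℝ, Mr = (M : ℝ) ^ (2 * κ) := ⟨_, rfl⟩
    have hMr0 : 0 < Mr := by
      rw [hMr]
      have : (0 : ℝ) < M := by exact_mod_cast hM1
      positivity
    rw [← hq, ← hMr] at hmain
    have hI'I : (I' : ℝ) ≤ I := by exact_mod_cast hI'
    have hI'0 : (0 : ℝ) ≤ I' := Nat.cast_nonneg _
    have hRr : (0 : ℝ) ≤ R := Nat.cast_nonneg _
    have hRI' : (R : ℝ) * (I + 1) ≤ Mr := by
      rw [hMr]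
      have h1 : R * (I + 1) ≤ M ^ (2 * κ) :=
        (Nat.mul_le_mul_right _ (Nat.le_succ R)).trans hRI
      exact_mod_cast h1
    -- first term
    have t1 : (2 * (I' : ℝ) + 1) * (N * 2 ^ (κ * J) / E) ≤ q / 8 := by
      rw [← mul_div_assoc, div_le_iff₀ hE0]
      have h1 : 8 * (4 / 3) ^ κ * N ≤ R := by
        have : 0 ≤ 8 * (4 / 3 : ℝ) ^ κ * N' := by positivity
        linarith
      have h2 : (0 : ℝ) ≤ (2 * I' + 1) * 2 ^ (κ * J) := by positivity
      have h3 := mul_le_mul_of_nonneg_right h1 h2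
      have h4 : (R : ℝ) * ((2 * I' + 1) * 2 ^ (κ * J)) ≤ E := by
        refine le_trans ?_ hE
        apply mul_le_mul_of_nonneg_left _ hRr
        apply mul_le_mul_of_nonneg_right _ (by positivity)
        linarith
      have h5 : 8 * (4 / 3 : ℝ) ^ κ * N * ((2 * I' + 1) * 2 ^ (κ * J)) ≤ E := h3.trans h4
      have h6 := mul_le_mul_of_nonneg_right h5 hq0.le
      have h7 : 8 * (4 / 3 : ℝ) ^ κ * N * ((2 * I' + 1) * 2 ^ (κ * J)) * q =
          8 * ((2 * I' + 1) * (N * 2 ^ (κ * J))) := by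
        calc _ = 8 * ((2 * I' + 1) * (N * 2 ^ (κ * J))) * ((4 / 3 : ℝ) ^ κ * q) := by ring
          _ = _ := by rw [hq1, mul_one]
      rw [h7] at h6
      linarith
    -- second term
    have t2 : (2 * κ * L + 1) * (B / Mr * ((I' + 1) * (5 / 4) ^ κ)) ≤ q / 8 := by
      have h0 : (2 * κ * L + 1) * (B / Mr * ((I' + 1) * (5 / 4) ^ κ)) = N' * (I' + 1) / Mr := by
        rw [hN']
        field_simp
      rw [h0, div_le_iff₀ hMr0]
      have h1 : 8 * (4 / 3) ^ κ * N' ≤ R := by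
        have : 0 ≤ 8 * (4 / 3 : ℝ) ^ κ * N := by positivity
        linarith
      have h2 : (0 : ℝ) ≤ (I' : ℝ) + 1 := by positivity
      have h3 := mul_le_mul_of_nonneg_right h1 h2
      have h4 : (R : ℝ) * (I' + 1) ≤ Mr := by
        refine le_trans ?_ hRI'
        apply mul_le_mul_of_nonneg_left _ hRr
        linarith
      have h6 := mul_le_mul_of_nonneg_right (h3.trans h4) hq0.le
      have h7 : 8 * (4 / 3 : ℝ) ^ κ * N' * (I' + 1) * q = 8 * (N' * (I' + 1)) := by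
        calc _ = 8 * (N' * (I' + 1)) * ((4 / 3 : ℝ) ^ κ * q) := by ring
          _ = _ := by rw [hq1, mul_one]
      rw [h7] at h6
      linarith
    linarith

end Pool.Agent.W895.GH
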