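import Pool.Agent.W895.GH.Block
import Pool.Agent.W895.PC.XorFam

/-!
# Guesses against coin tosses with unbounded error
-/

set_option autoImplicit false

open Finset

namespace Pool.Agent.W895.GH

open Pool.Agent.H554R2.Sem Pool.Agent.H554R2.Coin Pool.Agent.H554R2.Lin Pool.Agent.H554R2.Rnd
open Pool.Agent.H554R2.Qua Pool.Agent.H554R2.NC Pool.Agent.H554R2.Cnf
open Pool.Agent.W895.LT (AccIn conj)
open Pool.Agent.W895.PC (sgp abs_sgp Lift cst cst_acc NoPP acc_card)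

open Classical in
/-- the main inequality -/
theorem core {κ m n k K L C J : ℕ} {e : Fin κ × Fin m → Fin n} (he : Function.Injective e)
    {p : Pt m → Fin J → Bool} (hp : Lift K 1 L C J m p) (hK : (k + 1) * n ≤ K * m) (hn : 1 ≤ n)
    (hmn : m ≤ n) {B : ℝ} (hB : 0 ≤ B) {M : ℕ} (hM : 1 ≤ M)
    (hJ : ((2 * κ * L + 2 * κ) * M) ^ 2 ≤ J) (a : ℕ → ℝ) (ha : ∀ i, |a i| ≤ B / (M : ℝ) ^ (2 * κ))
    (hΛ : ∀ u : Fin κ → Finset (Fin J), (∀ i, (u i).card ≤ L) →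
      ∑ z, lam κ J (2 * κ * L) M a z * ∏ i, (sgp (u i) (z i) : ℝ) = 0)
    (S : ℕ) (hS : n ≤ 2 ^ S) (hS1 : 1 ≤ S) (τ : ℕ) (hτ : τ ≤ k * n) (I θ : ℕ)
    (P : Fin I → BP (Fin n) Bool) (hP : ∀ ω, Fintype.card (P ω).State ≤ 2 ^ S) (hθ : θ ≤ I + 1)
    (hcon : ∀ x, AllOnes (pat e p x) ↔ θ ≤ Nat.card {ω // AccIn (P ω) τ x}) :
    1 / 2 * (3 / 4) ^ κ ≤ (2 * I + 1) * ((2 ^ (2 * κ) + (2 * κ * L + 1) * B) * 2 ^ (κ * J) /
      2 ^ (m / (C * (S * (k + 11))))) +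
      (2 * κ * L + 1) * (B / (M : ℝ) ^ (2 * κ) * ((I + 1) * (5 / 4) ^ κ)) := by
  obtain ⟨E, hE⟩ : ∃ E : ℝ, E = 2 ^ (m / (C * (S * (k + 11)))) := ⟨_, rfl⟩
  have hE0 : 0 < E := by rw [hE]; positivity
  rw [← hE]
  obtain ⟨N, hN⟩ : ∃ N : ℝ, N = 2 ^ (2 * κ) + (2 * κ * L + 1) * B := ⟨_, rfl⟩
  have hN0 : 0 ≤ N := by rw [hN]; positivity
  rw [← hN]
  have hK1 : 2 * κ ≤ (2 * κ * L + 2 * κ) * M :=
    (Nat.le_add_left _ _).trans (Nat.le_mul_of_pos_right _ hM)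
  have hnorm : ∑ z, |lam κ J (2 * κ * L) M a z| ≤ N := by
    rw [hN]
    exact lam_norm hM hB hJ ha
  have hone : ∀ (Q : BP (Fin n) Bool), Fintype.card Q.State ≤ 2 ^ S → ∀ A : Finset (Pt n),
      (∀ x, x ∈ A ↔ AccIn Q τ x) →
      |∑ x ∈ A, lam κ J (2 * κ * L) M a (pat e p x)| ≤ 2 ^ n * N / E := by
    intro Q hQ A hA
    have h1 := dual_block (pat e p) A E hE0 (fun u hu => by
      have h2 := block_corr he hp hK u hu S hS hS1 hn hmn τ hτ Q hQ A hA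
      rw [← hE] at h2
      exact h2) (lam κ J (2 * κ * L) M a) hΛ
    rw [le_div_iff₀ hE0]
    exact h1.trans (mul_le_mul_of_nonneg_left hnorm (by positivity))
  obtain ⟨G, hG⟩ : ∃ G : Pt n → ℝ, G = fun x =>
    (Nat.card {ω // AccIn (P ω) τ x} : ℝ) - θ + 1 / 2 := ⟨_, rfl⟩
  have hcI : ∀ x, Nat.card {ω // AccIn (P ω) τ x} ≤ I := by
    intro x
    rw [Nat.card_eq_fintype_card]
    refine (Fintype.card_subtype_le _).trans ?_
    rw [Fintype.card_fin]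
  have hθr : (θ : ℝ) ≤ I + 1 := by exact_mod_cast hθ
  have hθ0 : (0 : ℝ) ≤ θ := Nat.cast_nonneg _
  have hI0 : (0 : ℝ) ≤ I := Nat.cast_nonneg _
  obtain ⟨V, hV⟩ : ∃ V : ℝ, V = (2 : ℝ) ^ n / 2 ^ (κ * J) := ⟨_, rfl⟩
  have hV0 : 0 < V := by rw [hV]; positivity
  have hmass : ∀ i ∈ range (2 * κ * L + 1),
      ∑ y ∈ (univ : Finset (Pt n)), mu κ J (i * M) (pat e p y) ≤ (5 / 4) ^ κ * V := by
    intro i hi
    rw [hV]
    refine (mass he hp (i * M) fun j => (tt_le j.2 ?_ hK1).trans hJ).2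
    apply Nat.mul_le_mul_right
    have := Finset.mem_range.1 hi
    omega
  have hpos := lam_pos (M := M) (a := a) (univ : Finset (Pt n)) (pat e p) G
    (by
      intro y _ h
      have h1 : (θ : ℝ) ≤ Nat.card {ω // AccIn (P ω) τ y} := by exact_mod_cast (hcon y).1 h
      rw [hG]
      simp only
      linarith)
    (by
      intro y _ h
      have h1 : ¬ θ ≤ Nat.card {ω // AccIn (P ω) τ y} := fun h2 => h ((hcon y).2 h2)
      have h2 : (Nat.card {ω // AccIn (P ω) τ y} : ℝ) + 1 ≤ θ := by exact_mod_cast not_le.1 h1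
      rw [hG]
      simp only
      linarith)
    (I + 1) (B / (M : ℝ) ^ (2 * κ)) ((5 / 4) ^ κ * V)
    (by
      intro y _
      have h1 : (Nat.card {ω // AccIn (P ω) τ y} : ℝ) ≤ I := by exact_mod_cast hcI y
      have h2 : (0 : ℝ) ≤ (Nat.card {ω // AccIn (P ω) τ y} : ℝ) := Nat.cast_nonneg _
      rw [hG]
      simp only
      rw [abs_le]
      constructor <;> linarith)
    (by positivity) ha (by positivity) hmass
  have hsum : ∑ y ∈ (univ : Finset (Pt n)), lam κ J (2 * κ * L) M a (pat e p y) * G y =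
      ∑ ω, ∑ x ∈ univ.filter (fun x => AccIn (P ω) τ x), lam κ J (2 * κ * L) M a (pat e p x) -
      (θ - 1 / 2) * ∑ x, lam κ J (2 * κ * L) M a (pat e p x) := by
    have e1 : ∑ ω, ∑ x ∈ univ.filter (fun x => AccIn (P ω) τ x),
        lam κ J (2 * κ * L) M a (pat e p x) =
        ∑ x : Pt n, lam κ J (2 * κ * L) M a (pat e p x) *
          (Nat.card {ω // AccIn (P ω) τ x} : ℝ) := by
      simp only [Finset.sum_filter]
      rw [Finset.sum_comm]
      refine Finset.sum_congr rfl fun x _ => ?_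
      rw [acc_card]
      push_cast
      rw [Finset.mul_sum]
      refine Finset.sum_congr rfl fun ω _ => ?_
      split_ifs <;> simp
    rw [e1, Finset.mul_sum, ← Finset.sum_sub_distrib]
    refine Finset.sum_congr rfl fun x _ => ?_
    rw [hG]
    ring
  have h1 : |∑ ω, ∑ x ∈ univ.filter (fun x => AccIn (P ω) τ x),
      lam κ J (2 * κ * L) M a (pat e p x)| ≤ I * (2 ^ n * N / E) := by
    refine (Finset.abs_sum_le_sum_abs _ _).trans ?_
    refine (Finset.sum_le_sum fun ω _ => hone (P ω) (hP ω) _ (fun x => by simp)).trans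
      (le_of_eq ?_)
    rw [Finset.sum_const, Finset.card_univ, Fintype.card_fin, nsmul_eq_mul]
  have h2 : |∑ x, lam κ J (2 * κ * L) M a (pat e p x)| ≤ 2 ^ n * N / E :=
    hone (cst n true) (by
      show Fintype.card Unit ≤ _
      rw [Fintype.card_unit]
      exact Nat.one_le_two_pow) univ (fun x => ⟨fun _ => cst_acc n τ x, fun _ => mem_univ _⟩)
  have hX : (0 : ℝ) ≤ 2 ^ n * N / E := by positivity
  have h3 : |(θ - 1 / 2 : ℝ) * ∑ x, lam κ J (2 * κ * L) M a (pat e p x)| ≤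
      (I + 1) * (2 ^ n * N / E) := by
    rw [abs_mul]
    apply mul_le_mul _ h2 (abs_nonneg _) (by positivity)
    rw [abs_le]
    constructor <;> linarith
  have hm0 : (3 / 4) ^ κ * V ≤ ∑ y ∈ (univ : Finset (Pt n)), mu κ J 0 (pat e p y) := by
    rw [hV]
    exact (mass he hp 0 fun j => (tt_le j.2 (Nat.zero_le _) hK1).trans hJ).1
  rw [hsum] at hpos
  have h4 := (abs_le.1 h1).2
  have h5 := (abs_le.1 h3).1
  have h6 : 1 / 2 * ((3 / 4) ^ κ * V) ≤ (2 * I + 1) * (2 ^ n * N / E) +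
      ((2 * κ * L : ℕ) + 1) * (B / (M : ℝ) ^ (2 * κ) * ((I + 1) * ((5 / 4) ^ κ * V))) := by
    have : 1 / 2 * ((3 / 4) ^ κ * V) ≤
        1 / 2 * ∑ y ∈ (univ : Finset (Pt n)), mu κ J 0 (pat e p y) := by linarith
    linarith
  have h7 : (2 * (I : ℝ) + 1) * (2 ^ n * N / E) = ((2 * I + 1) * (N * 2 ^ (κ * J) / E)) * V := by
    rw [hV]
    field_simp
  rw [h7] at h6
  have h8 : ((2 * κ * L : ℕ) + 1 : ℝ) * (B / (M : ℝ) ^ (2 * κ) * ((I + 1) * ((5 / 4) ^ κ * V))) =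
      ((2 * κ * L + 1) * (B / (M : ℝ) ^ (2 * κ) * ((I + 1) * (5 / 4) ^ κ))) * V := by
    push_cast
    ring
  rw [h8, ← add_mul] at h6
  have h9 : (1 / 2 * (3 / 4) ^ κ) * V ≤ ((2 * I + 1) * (N * 2 ^ (κ * J) / E) +
      (2 * κ * L + 1) * (B / (M : ℝ) ^ (2 * κ) * ((I + 1) * (5 / 4) ^ κ))) * V := by
    linarith
  exact le_of_mul_le_mul_right h9 hV0

end Pool.Agent.W895.GH
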